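import Pool.Agent.Run7.h343.PV.Iface

/-!
# Project PV (helper343), job DIAG, first part: comparison of a sum with an integral
-/

set_option autoImplicit false

namespace Pool.Agent.Run7.h136.PV

open Finset

theorem del {k : ℕ} (hk : 1 ≤ k) : 0 ≤ Real.log ((k : ℝ) + 1) - Real.log k ∧
    Real.log ((k : ℝ) + 1) - Real.log k ≤ 1 / k ∧
    1 / (k : ℝ) - (1 / (k : ℝ)) ^ 2 ≤ Real.log ((k : ℝ) + 1) - Real.log k := by
  have hk0 : (0 : ℝ) < k := by exact_mod_cast hk
  have e : Real.log ((k : ℝ) + 1) - Real.log k = Real.log (((k : ℝ) + 1) / k) := by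
    rw [Real.log_div (by positivity) (by positivity)]
  rw [e]
  have hx : 0 < ((k : ℝ) + 1) / k := by positivity
  have h1 := Real.log_le_sub_one_of_pos hx
  have h2 := Real.one_sub_inv_le_log_of_pos hx
  have e1 : ((k : ℝ) + 1) / k - 1 = 1 / k := by field_simp; ring
  have e2 : 1 - (((k : ℝ) + 1) / k)⁻¹ = 1 / ((k : ℝ) + 1) := by
    rw [inv_div]
    field_simp
    ring
  rw [e1] at h1
  rw [e2] at h2
  have h3 : 0 ≤ 1 / ((k : ℝ) + 1) := by positivity
  refine ⟨h3.trans h2, h1, ?_⟩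
  refine le_trans ?_ h2
  rw [div_pow, one_pow, div_sub_div _ _ (by positivity) (by positivity),
    div_le_div_iff₀ (by positivity) (by positivity)]
  nlinarith [pow_pos hk0 2, pow_pos hk0 3]

theorem step1 {g : ℝ → ℝ} (hg : Continuous g) (h1 : ∀ t, |g t| ≤ 1)
    (h2 : ∀ s t, |g s - g t| ≤ 2 * |s - t|) {a b x : ℝ} (hab : a ≤ b) (hbx : b - a ≤ x)
    (hx : x - x ^ 2 ≤ b - a) :
    |g a * x - ∫ t in a..b, g t| ≤ 3 * x ^ 2 := by
  have e : (∫ t in a..b, g t) - g a * (b - a) = ∫ t in a..b, (g t - g a) := by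
    rw [intervalIntegral.integral_sub (hg.intervalIntegrable _ _) intervalIntegrable_const,
      intervalIntegral.integral_const, smul_eq_mul]
    ring
  have h3 : ‖∫ t in a..b, (g t - g a)‖ ≤ (2 * (b - a)) * |b - a| := by
    apply intervalIntegral.norm_integral_le_of_norm_le_const
    intro t ht
    rw [Set.uIoc_of_le hab] at ht
    rw [Real.norm_eq_abs]
    refine (h2 t a).trans ?_
    rw [abs_of_nonneg (by linarith [ht.1])]
    linarith [ht.2]
  rw [← e, Real.norm_eq_abs, abs_of_nonneg (show 0 ≤ b - a by linarith)] at h3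
  have h4 : g a * x - ∫ t in a..b, g t =
      g a * (x - (b - a)) - ((∫ t in a..b, g t) - g a * (b - a)) := by ring
  rw [h4]
  refine (abs_sub _ _).trans ?_
  rw [abs_mul, abs_of_nonneg (show 0 ≤ x - (b - a) by linarith)]
  have h5 : |g a| * (x - (b - a)) ≤ 1 * x ^ 2 := by
    refine mul_le_mul (h1 a) (by linarith) (by linarith) (by norm_num)
  have h6 : 2 * (b - a) * (b - a) ≤ 2 * x ^ 2 := by nlinarith
  linarith

theorem cmpI {g : ℝ → ℝ} (hg : Continuous g) (h1 : ∀ t, |g t| ≤ 1)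
    (h2 : ∀ s t, |g s - g t| ≤ 2 * |s - t|) (e : ℕ) (he : 1 ≤ e) (k₀ : ℕ) (hk₀ : 1 ≤ k₀) (K : ℕ)
    (hK : k₀ ≤ K) :
    |∑ k ∈ Ico k₀ K, g (Real.log ((e : ℝ) * k)) * (1 / (k : ℝ)) -
      ∫ t in (Real.log ((e : ℝ) * k₀))..(Real.log ((e : ℝ) * K)), g t| ≤
      6 * (1 / (k₀ : ℝ) - 1 / K) := by
  have he0 : (0 : ℝ) < e := by exact_mod_cast he
  induction K, hK using Nat.le_induction with
  | base => simp
  | succ K hK ih =>
    have hK1 : 1 ≤ K := hk₀.trans hK
    have hK0 : (0 : ℝ) < K := by exact_mod_cast hK1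
    obtain ⟨d1, d2, d3⟩ := del hK1
    have ea : Real.log ((e : ℝ) * ((K + 1 : ℕ) : ℝ)) - Real.log ((e : ℝ) * K) =
        Real.log ((K : ℝ) + 1) - Real.log K := by
      rw [Real.log_mul (by positivity) (by positivity), Real.log_mul (by positivity) (by positivity)]
      push_cast
      ring
    have h3 := step1 hg h1 h2 (a := Real.log ((e : ℝ) * K))
      (b := Real.log ((e : ℝ) * ((K + 1 : ℕ) : ℝ))) (x := 1 / (K : ℝ))
      (by linarith) (by linarith) (by linarith)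
    rw [Finset.sum_Ico_succ_top hK]
    have h4 : (∫ t in (Real.log ((e : ℝ) * k₀))..(Real.log ((e : ℝ) * ((K + 1 : ℕ) : ℝ))), g t) =
        (∫ t in (Real.log ((e : ℝ) * k₀))..(Real.log ((e : ℝ) * K)), g t) +
        ∫ t in (Real.log ((e : ℝ) * K))..(Real.log ((e : ℝ) * ((K + 1 : ℕ) : ℝ))), g t :=
      (intervalIntegral.integral_add_adjacent_intervals (hg.intervalIntegrable _ _)
        (hg.intervalIntegrable _ _)).symm
    rw [h4]
    have h5 : ∀ A B C D : ℝ, |(A + B) - (C + D)| ≤ |A - C| + |B - D| := by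
      intro A B C D
      have : (A + B) - (C + D) = (A - C) + (B - D) := by ring
      rw [this]
      exact abs_add_le _ _
    refine (h5 _ _ _ _).trans ?_
    have h6 : 3 * (1 / (K : ℝ)) ^ 2 ≤ 6 * (1 / (K : ℝ) - 1 / ((K + 1 : ℕ) : ℝ)) := by
      push_cast
      have h7 : 1 / (K : ℝ) - 1 / ((K : ℝ) + 1) = 1 / (K * (K + 1)) := by field_simp; ring
      rw [h7, div_pow, one_pow]
      have h8 : (1 : ℝ) ≤ K := by exact_mod_cast hK1
      rw [mul_one_div, mul_one_div, div_le_div_iff₀ (by positivity) (by positivity)]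
      nlinarith
    linarith

theorem cmp {g : ℝ → ℝ} (hg : Continuous g) (h1 : ∀ t, |g t| ≤ 1)
    (h2 : ∀ s t, |g s - g t| ≤ 2 * |s - t|) (e : ℕ) (he : 1 ≤ e) {x₁ T : ℝ} (hx : 0 < x₁)
    (hT : Real.log x₁ ≤ T) (h3 : ∀ t, T ≤ t → g t = 0) (N : ℕ) (hN : Real.exp T ≤ N) :
    |∑ n ∈ (Icc 1 N).filter (fun n : ℕ => x₁ < (n : ℝ)),
      (if e ∣ n then g (Real.log n) / n else 0) - (1 / (e : ℝ)) * ∫ t in (Real.log x₁)..T, g t| ≤
      7 / x₁ := by
  have he0 : (0 : ℝ) < e := by exact_mod_cast he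
  obtain ⟨k₀, hk₀⟩ : ∃ k : ℕ, k = ⌊x₁ / e⌋₊ + 1 := ⟨_, rfl⟩
  have hk₀1 : 1 ≤ k₀ := by omega
  have hk₀0 : (0 : ℝ) < k₀ := by exact_mod_cast hk₀1
  have hk₀a : x₁ < e * k₀ := by
    have := Nat.lt_floor_add_one (x₁ / e)
    rw [div_lt_iff₀ he0] at this
    rw [hk₀]
    push_cast
    linarith
  have hk₀b : (e : ℝ) * k₀ ≤ x₁ + e := by
    have := Nat.floor_le (show 0 ≤ x₁ / e by positivity)
    rw [le_div_iff₀ he0] at this
    rw [hk₀]
    push_cast
    linarith
  have hxN : x₁ ≤ N := by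
    have : x₁ ≤ Real.exp T := by
      rw [← Real.exp_log hx]
      exact Real.exp_le_exp.2 hT
    linarith
  have hK : k₀ ≤ N / e + 1 := by
    rw [hk₀]
    have h4 : ⌊x₁ / e⌋₊ ≤ N / e := by
      rw [Nat.le_div_iff_mul_le (by omega)]
      have h5 := Nat.floor_le (show 0 ≤ x₁ / e by positivity)
      rw [le_div_iff₀ he0] at h5
      have h6 : ((⌊x₁ / e⌋₊ * e : ℕ) : ℝ) ≤ N := by
        push_cast
        linarith
      exact_mod_cast h6
    omega
  -- reindexing
  have hre : ∑ n ∈ (Icc 1 N).filter (fun n : ℕ => x₁ < (n : ℝ)),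
      (if e ∣ n then g (Real.log n) / n else 0) =
      ∑ k ∈ Ico k₀ (N / e + 1), (1 / (e : ℝ)) * (g (Real.log ((e : ℝ) * k)) * (1 / (k : ℝ))) := by
    rw [← Finset.sum_filter, Finset.filter_filter]
    refine Finset.sum_nbij' (fun n => n / e) (fun k => e * k) ?_ ?_ ?_ ?_ ?_
    · intro n hn
      simp only [Finset.mem_filter, Finset.mem_Icc] at hn
      obtain ⟨⟨hn1, hn2⟩, hn3, ⟨k, rfl⟩⟩ := hn
      simp only [Finset.mem_Ico]
      rw [Nat.mul_div_cancel_left _ (by omega)]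
      constructor
      · rw [hk₀, Nat.add_one_le_iff, Nat.floor_lt (by positivity), div_lt_iff₀ he0]
        push_cast at hn3
        linarith
      · rw [Nat.lt_add_one_iff, Nat.le_div_iff_mul_le (by omega), mul_comm]
        exact hn2
    · intro k hk
      simp only [Finset.mem_Ico] at hk
      simp only [Finset.mem_filter, Finset.mem_Icc]
      have h4 : k * e ≤ N := by
        rw [← Nat.le_div_iff_mul_le (by omega)]
        omega
      refine ⟨⟨?_, by rw [mul_comm]; exact h4⟩, ?_, dvd_mul_right _ _⟩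
      · have : 1 ≤ k := by omega
        nlinarith
      · push_cast
        have h5 : (k₀ : ℝ) ≤ k := by exact_mod_cast hk.1
        have h6 : (e : ℝ) * k₀ ≤ e * k := by gcongr
        linarith
    · intro n hn
      simp only [Finset.mem_filter, Finset.mem_Icc] at hn
      exact Nat.mul_div_cancel' hn.2.2
    · intro k hk
      exact Nat.mul_div_cancel_left _ (by omega)
    · intro n hn
      simp only [Finset.mem_filter, Finset.mem_Icc] at hn
      obtain ⟨⟨hn1, hn2⟩, hn3, ⟨k, rfl⟩⟩ := hn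
      rw [Nat.mul_div_cancel_left _ (by omega)]
      push_cast
      have hk0 : (k : ℝ) ≠ 0 := by
        rintro h
        have : k = 0 := by exact_mod_cast h
        subst this
        simp at hn1
      field_simp
  rw [hre, ← Finset.mul_sum, ← mul_sub, abs_mul, abs_of_nonneg (show 0 ≤ 1 / (e : ℝ) by positivity)]
  have h4 := cmpI hg h1 h2 e he k₀ hk₀1 (N / e + 1) hK
  have hKe : (N : ℝ) ≤ e * ((N / e + 1 : ℕ) : ℝ) := by
    have h5 : N < e * (N / e + 1) := Nat.lt_mul_div_succ N (by omega)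
    have h6 : (N : ℝ) < ((e * (N / e + 1) : ℕ) : ℝ) := by exact_mod_cast h5
    push_cast at h6 ⊢
    linarith
  have hT2 : T ≤ Real.log ((e : ℝ) * ((N / e + 1 : ℕ) : ℝ)) := by
    have h5 : Real.exp T ≤ (e : ℝ) * ((N / e + 1 : ℕ) : ℝ) := hN.trans hKe
    rw [← Real.log_exp T]
    exact Real.log_le_log (Real.exp_pos _) h5
  -- the integrals
  have i1 : (∫ t in (Real.log x₁)..T, g t) =
      (∫ t in (Real.log x₁)..(Real.log ((e : ℝ) * k₀)), g t) +
      (∫ t in (Real.log ((e : ℝ) * k₀))..(Real.log ((e : ℝ) * ((N / e + 1 : ℕ) : ℝ))), g t) -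
      ∫ t in T..(Real.log ((e : ℝ) * ((N / e + 1 : ℕ) : ℝ))), g t := by
    rw [intervalIntegral.integral_add_adjacent_intervals (hg.intervalIntegrable _ _)
        (hg.intervalIntegrable _ _), ← intervalIntegral.integral_add_adjacent_intervals
        (hg.intervalIntegrable (Real.log x₁) T) (hg.intervalIntegrable T
          (Real.log ((e : ℝ) * ((N / e + 1 : ℕ) : ℝ))))]
    ring
  have i2 : (∫ t in T..(Real.log ((e : ℝ) * ((N / e + 1 : ℕ) : ℝ))), g t) = 0 := by
    have : (∫ t in T..(Real.log ((e : ℝ) * ((N / e + 1 : ℕ) : ℝ))), g t) =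
        ∫ t in T..(Real.log ((e : ℝ) * ((N / e + 1 : ℕ) : ℝ))), (0 : ℝ) := by
      refine intervalIntegral.integral_congr fun t ht => ?_
      rw [Set.uIcc_of_le hT2] at ht
      exact h3 t ht.1
    rw [this]
    simp
  have i3 : |∫ t in (Real.log x₁)..(Real.log ((e : ℝ) * k₀)), g t| ≤ e / x₁ := by
    have h5 : ‖∫ t in (Real.log x₁)..(Real.log ((e : ℝ) * k₀)), g t‖ ≤
        1 * |Real.log ((e : ℝ) * k₀) - Real.log x₁| := by
      apply intervalIntegral.norm_integral_le_of_norm_le_const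
      intro t _
      exact h1 t
    rw [Real.norm_eq_abs, one_mul, ← Real.log_div (by positivity) (by positivity)] at h5
    have h6 : 1 ≤ (e : ℝ) * k₀ / x₁ := by
      rw [le_div_iff₀ hx]
      linarith
    rw [abs_of_nonneg (Real.log_nonneg h6)] at h5
    refine h5.trans ((Real.log_le_sub_one_of_pos (by linarith)).trans ?_)
    rw [sub_le_iff_le_add, div_le_iff₀ hx, add_mul, div_mul_cancel₀ _ hx.ne']
    linarith
  have i4 : 6 * (1 / (k₀ : ℝ) - 1 / ((N / e + 1 : ℕ) : ℝ)) ≤ 6 * (e / x₁) := by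
    have h5 : 1 / (k₀ : ℝ) ≤ e / x₁ := by
      rw [div_le_div_iff₀ hk₀0 hx]
      linarith
    have h6 : 0 ≤ 1 / ((N / e + 1 : ℕ) : ℝ) := by positivity
    linarith
  rw [i1, i2]
  have h7 : ∀ A B C : ℝ, |A - (B + C - 0)| ≤ |A - C| + |B| := by
    intro A B C
    have : A - (B + C - 0) = (A - C) - B := by ring
    rw [this]
    exact abs_sub _ _
  have h8 := h7 (∑ k ∈ Ico k₀ (N / e + 1), g (Real.log ((e : ℝ) * k)) * (1 / (k : ℝ)))
    (∫ t in (Real.log x₁)..(Real.log ((e : ℝ) * k₀)), g t)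
    (∫ t in (Real.log ((e : ℝ) * k₀))..(Real.log ((e : ℝ) * ((N / e + 1 : ℕ) : ℝ))), g t)
  have h9 : 1 / (e : ℝ) * |∑ k ∈ Ico k₀ (N / e + 1), g (Real.log ((e : ℝ) * k)) * (1 / (k : ℝ)) -
      ((∫ t in (Real.log x₁)..(Real.log ((e : ℝ) * k₀)), g t) +
      (∫ t in (Real.log ((e : ℝ) * k₀))..(Real.log ((e : ℝ) * ((N / e + 1 : ℕ) : ℝ))), g t) - 0)| ≤
      1 / (e : ℝ) * (7 * (e / x₁)) := by
    gcongr
    linarith
  refine h9.trans (le_of_eq ?_)
  field_simp

end Pool.Agent.Run7.h136.PV
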