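import Pool.Agent.Run7.h136.PV.Cmp

/-!
# Project PV (helper343), job DIAG
-/

set_option autoImplicit false

namespace Pool.Agent.Run7.h136.PV

open Finset Pool.Agent.Run7.h343.PV

theorem mu_abs (n : ℕ) : |mu n| ≤ 1 := by
  unfold mu
  have h := ArithmeticFunction.abs_moebius_le_one (n := n)
  have h2 : |((ArithmeticFunction.moebius n : ℤ) : ℝ)| = ((|ArithmeticFunction.moebius n| : ℤ) : ℝ) := by
    push_cast
    rfl
  rw [h2]
  exact_mod_cast h

theorem PL_nonneg (Y : ℝ) (l : ℕ) : 0 ≤ PL Y l := le_max_left _ _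

theorem PL_le (Y : ℝ) (hY : 1 < Y) (l : ℕ) : PL Y l ≤ 1 := by
  unfold PL
  refine max_le (by norm_num) ?_
  have h1 : 0 ≤ Real.log l := Real.log_natCast_nonneg l
  have h2 : 0 < Real.log Y := Real.log_pos hY
  have h3 : 0 ≤ Real.log l / Real.log Y := by positivity
  linarith

theorem PL_zero (Y : ℝ) (hY : 1 < Y) (l : ℕ) (hl : Y ≤ l) : PL Y l = 0 := by
  unfold PL
  refine max_eq_left ?_
  have h2 : 0 < Real.log Y := Real.log_pos hY
  have h3 : Real.log Y ≤ Real.log l := Real.log_le_log (by linarith) hl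
  have h4 : 1 ≤ Real.log l / Real.log Y := by
    rw [le_div_iff₀ h2]
    linarith
  linarith

theorem log_diff {d k : ℕ} (hd : 1 ≤ d) (hk : 1 ≤ k) :
    |Real.log ((d * (k + 1) : ℕ) : ℝ) - Real.log ((d * k : ℕ) : ℝ)| ≤ 1 / k := by
  have hd0 : (0 : ℝ) < d := by exact_mod_cast hd
  have hk0 : (0 : ℝ) < k := by exact_mod_cast hk
  obtain ⟨d1, d2, d3⟩ := del hk
  have e : Real.log ((d * (k + 1) : ℕ) : ℝ) - Real.log ((d * k : ℕ) : ℝ) =
      Real.log ((k : ℝ) + 1) - Real.log k := by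
    push_cast
    rw [Real.log_mul (by positivity) (by positivity), Real.log_mul (by positivity) (by positivity)]
    ring
  rw [e, abs_of_nonneg d1]
  exact d2

theorem PL_lip (Y : ℝ) (hY : 1 < Y) {d k : ℕ} (hd : 1 ≤ d) (hk : 1 ≤ k) :
    |PL Y (d * (k + 1)) - PL Y (d * k)| ≤ (1 / Real.log Y) / k := by
  unfold PL
  have h2 : 0 < Real.log Y := Real.log_pos hY
  have key : ∀ x y : ℝ, |max 0 x - max 0 y| ≤ |x - y| := fun x y => by
    rw [max_comm 0 x, max_comm 0 y]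
    exact abs_max_sub_max_le_abs x y 0
  refine (key _ _).trans ?_
  have h3 := log_diff hd hk
  have e : 1 - Real.log ((d * (k + 1) : ℕ) : ℝ) / Real.log Y -
      (1 - Real.log ((d * k : ℕ) : ℝ) / Real.log Y) =
      -((Real.log ((d * (k + 1) : ℕ) : ℝ) - Real.log ((d * k : ℕ) : ℝ)) / Real.log Y) := by ring
  rw [e, abs_neg, abs_div, abs_of_pos h2, div_right_comm]
  exact div_le_div_of_nonneg_right h3 h2.le

/-- the weights of Selberg's form at `t` -/
noncomputable def Gt (Y : ℝ) (h : ℝ → ℝ) (t : ℝ) (l : ℕ) : ℝ := PL Y l * h (t - Real.log l)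

theorem Gt_abs {Y : ℝ} (hY : 1 < Y) {h : ℝ → ℝ} (h1 : ∀ t, |h t| ≤ 1) (t : ℝ) (l : ℕ) :
    |Gt Y h t l| ≤ 1 := by
  unfold Gt
  rw [abs_mul, abs_of_nonneg (PL_nonneg Y l)]
  have := mul_le_mul (PL_le Y hY l) (h1 (t - Real.log l)) (abs_nonneg _) (by norm_num)
  linarith

theorem Gt_lip {Y U : ℝ} (hY : 1 < Y) (hU : 1 ≤ U) {h : ℝ → ℝ} (h1 : ∀ t, |h t| ≤ 1)
    (h2 : ∀ s t, |h s - h t| ≤ |s - t| / U) (t : ℝ) {d k : ℕ} (hd : 1 ≤ d) (hk : 1 ≤ k) :
    |Gt Y h t (d * (k + 1)) - Gt Y h t (d * k)| ≤ (1 / Real.log Y + 1 / U) / k := by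
  unfold Gt
  have hk0 : (0 : ℝ) < k := by exact_mod_cast hk
  have e : ∀ p p' x x' : ℝ, p * x - p' * x' = (p - p') * x + p' * (x - x') := by
    intros
    ring
  rw [e]
  refine (abs_add_le _ _).trans ?_
  rw [abs_mul, abs_mul, abs_of_nonneg (PL_nonneg Y _), add_div]
  have a1 := PL_lip Y hY hd hk
  have a2 := PL_le Y hY (d * k)
  have a3 := h1 (t - Real.log ((d * (k + 1) : ℕ) : ℝ))
  have a4 : |h (t - Real.log ((d * (k + 1) : ℕ) : ℝ)) - h (t - Real.log ((d * k : ℕ) : ℝ))| ≤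
      1 / U / k := by
    refine (h2 _ _).trans ?_
    have e2 : t - Real.log ((d * (k + 1) : ℕ) : ℝ) - (t - Real.log ((d * k : ℕ) : ℝ)) =
      -(Real.log ((d * (k + 1) : ℕ) : ℝ) - Real.log ((d * k : ℕ) : ℝ)) := by ring
    rw [e2, abs_neg, div_right_comm]
    exact div_le_div_of_nonneg_right (log_diff hd hk) (by linarith)
  have hlY : 0 < Real.log Y := Real.log_pos hY
  have b1 : |PL Y (d * (k + 1)) - PL Y (d * k)| * |h (t - Real.log ((d * (k + 1) : ℕ) : ℝ))| ≤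
      (1 / Real.log Y) / k * 1 := mul_le_mul a1 a3 (abs_nonneg _) (by positivity)
  have b2 : PL Y (d * k) *
      |h (t - Real.log ((d * (k + 1) : ℕ) : ℝ)) - h (t - Real.log ((d * k : ℕ) : ℝ))| ≤
      1 * (1 / U / k) := mul_le_mul a2 a4 (abs_nonneg _) (by norm_num)
  linarith

/-- `DD` as a sum over `l ≤ Y` -/
theorem DD_eq {Y : ℝ} (hY : 1 < Y) (h : ℝ → ℝ) {n : ℕ} (hn : 1 ≤ n) :
    DD Y h n = ∑ l ∈ Icc 1 ⌊Y⌋₊, if l ∣ n then mu l * Gt Y h (Real.log n) l else 0 := by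
  unfold DD Gt
  have hn0 : (0 : ℝ) < n := by exact_mod_cast hn
  have e1 : ∀ l ∈ n.divisors, mu l * PL Y l * h (Real.log ((n : ℝ) / l)) =
      mu l * (PL Y l * h (Real.log n - Real.log l)) := by
    intro l hl
    have hl1 : 1 ≤ l := Nat.pos_of_mem_divisors hl
    have hl0 : (0 : ℝ) < l := by exact_mod_cast hl1
    rw [Real.log_div (by positivity) (by positivity)]
    ring
  rw [Finset.sum_congr rfl e1, ← Finset.sum_filter]
  symm
  refine Finset.sum_subset ?_ ?_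
  · intro l hl
    rw [Finset.mem_filter] at hl
    exact Nat.mem_divisors.2 ⟨hl.2, by omega⟩
  · intro l hl hl'
    have hl1 : 1 ≤ l := Nat.pos_of_mem_divisors hl
    have hl2 : Y ≤ l := by
      by_contra hcon
      apply hl'
      rw [Finset.mem_filter, Finset.mem_Icc]
      exact ⟨⟨hl1, Nat.le_floor (not_le.1 hcon).le⟩, Nat.dvd_of_mem_divisors hl⟩
    rw [PL_zero Y hY l hl2]
    ring

theorem t_DIAG (hQF : S_QF) : S_DIAG := by
  obtain ⟨C, hC, hQF⟩ := hQF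
  refine ⟨C + 7, by linarith, ?_⟩
  intro Y x₁ B U h hY hx₁ hU h1 h2 h3 N
  have hY1 : 1 < Y := by linarith
  have hlY : 0 < Real.log Y := Real.log_pos hY1
  have hx₁1 : 1 < x₁ := by nlinarith [pow_le_pow_left₀ (by linarith) hY 3]
  have hx₁0 : 0 < x₁ := by linarith
  have hU0 : 0 < U := by linarith
  obtain ⟨M, hM⟩ : ∃ M : ℕ, M = ⌊Y⌋₊ := ⟨_, rfl⟩
  have hM1 : 1 ≤ M := by rw [hM]; exact Nat.le_floor (by push_cast; linarith)
  have hMY : (M : ℝ) ≤ Y := by rw [hM]; exact Nat.floor_le (by linarith)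
  obtain ⟨T, hT⟩ : ∃ T : ℝ, T = max (|B| + Real.log Y) (Real.log x₁) := ⟨_, rfl⟩
  have hT1 : |B| + Real.log Y ≤ T := by rw [hT]; exact le_max_left _ _
  have hT2 : Real.log x₁ ≤ T := by rw [hT]; exact le_max_right _ _
  have hlx : 0 < Real.log x₁ := Real.log_pos hx₁1
  have hT3 : T - Real.log x₁ ≤ |B| + Real.log Y := by
    rw [hT]
    have hB := abs_nonneg B
    rcases max_cases (|B| + Real.log Y) (Real.log x₁) with ⟨h, _⟩ | ⟨h, _⟩ <;> rw [h] <;> linarith
  -- continuity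
  have hcont : Continuous h := by
    rw [Metric.continuous_iff]
    intro b ε hε
    refine ⟨ε * U, by positivity, fun a ha => ?_⟩
    rw [Real.dist_eq] at ha ⊢
    refine (h2 a b).trans_lt ?_
    rw [div_lt_iff₀ hU0]
    exact ha
  -- increase `N`
  obtain ⟨N', hN'⟩ : ∃ N' : ℕ, N' = max N ⌈Real.exp T⌉₊ := ⟨_, rfl⟩
  have hNN' : N ≤ N' := by rw [hN']; exact le_max_left _ _
  have hN'T : Real.exp T ≤ N' := by
    rw [hN']
    refine (Nat.le_ceil _).trans ?_
    exact_mod_cast le_max_right _ _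
  have hmono : ∑ n ∈ (Icc 1 N).filter (fun n : ℕ => x₁ < (n : ℝ)), DD Y h n ^ 2 / n ≤
      ∑ n ∈ (Icc 1 N').filter (fun n : ℕ => x₁ < (n : ℝ)), DD Y h n ^ 2 / n := by
    refine Finset.sum_le_sum_of_subset_of_nonneg ?_ fun n _ _ => by positivity
    refine Finset.filter_subset_filter _ ?_
    exact Finset.Icc_subset_Icc le_rfl hNN'
  refine hmono.trans ?_
  -- the expansion
  obtain ⟨a, ha⟩ : ∃ a : ℕ → ℝ, a = fun l => mu l * PL Y l := ⟨_, rfl⟩
  have ha1 : ∀ l, |a l| ≤ 1 := by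
    intro l
    rw [ha]
    simp only
    rw [abs_mul, abs_of_nonneg (PL_nonneg Y l)]
    have := mul_le_mul (mu_abs l) (PL_le Y hY1 l) (PL_nonneg Y l) (by norm_num)
    linarith
  have hexp : ∑ n ∈ (Icc 1 N').filter (fun n : ℕ => x₁ < (n : ℝ)), DD Y h n ^ 2 / n =
      ∑ l₁ ∈ Icc 1 M, ∑ l₂ ∈ Icc 1 M, (a l₁ * a l₂) *
        ∑ n ∈ (Icc 1 N').filter (fun n : ℕ => x₁ < (n : ℝ)),
          (if Nat.lcm l₁ l₂ ∣ n then (h (Real.log n - Real.log l₁) * h (Real.log n - Real.log l₂)) / n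
            else 0) := by
    have e1 : ∀ n ∈ (Icc 1 N').filter (fun n : ℕ => x₁ < (n : ℝ)), DD Y h n ^ 2 / n =
        ∑ l₁ ∈ Icc 1 M, ∑ l₂ ∈ Icc 1 M, (a l₁ * a l₂) *
          (if Nat.lcm l₁ l₂ ∣ n then (h (Real.log n - Real.log l₁) * h (Real.log n - Real.log l₂)) / n
            else 0) := by
      intro n hn
      have hn1 : 1 ≤ n := (Finset.mem_Icc.1 (Finset.mem_filter.1 hn).1).1
      rw [DD_eq hY1 h hn1, ← hM, sq, Finset.sum_mul_sum, Finset.sum_div]
      refine Finset.sum_congr rfl fun l₁ _ => ?_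
      rw [Finset.sum_div]
      refine Finset.sum_congr rfl fun l₂ _ => ?_
      unfold Gt
      rw [ha]
      by_cases c1 : l₁ ∣ n <;> by_cases c2 : l₂ ∣ n <;> simp [Nat.lcm_dvd_iff, c1, c2]
      ring
    rw [Finset.sum_congr rfl e1, Finset.sum_comm]
    refine Finset.sum_congr rfl fun l₁ _ => ?_
    rw [Finset.sum_comm]
    refine Finset.sum_congr rfl fun l₂ _ => ?_
    rw [Finset.mul_sum]
  rw [hexp]
  -- comparison with the integral
  have hcmp : ∀ l₁ ∈ Icc 1 M, ∀ l₂ ∈ Icc 1 M,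
      |(a l₁ * a l₂) * ∑ n ∈ (Icc 1 N').filter (fun n : ℕ => x₁ < (n : ℝ)),
          (if Nat.lcm l₁ l₂ ∣ n then (h (Real.log n - Real.log l₁) * h (Real.log n - Real.log l₂)) / n
            else 0) -
        (a l₁ * a l₂) * ((1 / ((Nat.lcm l₁ l₂ : ℕ) : ℝ)) * ∫ t in (Real.log x₁)..T,
          h (t - Real.log l₁) * h (t - Real.log l₂))| ≤ 7 / x₁ := by
    intro l₁ hl₁ l₂ hl₂
    rw [Finset.mem_Icc] at hl₁ hl₂
    rw [← mul_sub, abs_mul, abs_mul]
    have hb : |a l₁| * |a l₂| ≤ 1 := by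
      have := mul_le_mul (ha1 l₁) (ha1 l₂) (abs_nonneg _) (by norm_num)
      linarith
    have hl : 1 ≤ Nat.lcm l₁ l₂ := Nat.lcm_pos (by omega) (by omega)
    have hc := cmp (g := fun t => h (t - Real.log l₁) * h (t - Real.log l₂)) (by
        exact (hcont.comp (continuous_id.sub continuous_const)).mul
          (hcont.comp (continuous_id.sub continuous_const)))
      (fun t => by
        rw [abs_mul]
        have := mul_le_mul (h1 (t - Real.log l₁)) (h1 (t - Real.log l₂)) (abs_nonneg _) (by norm_num)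
        linarith)
      (fun s t => by
        have e : h (s - Real.log l₁) * h (s - Real.log l₂) - h (t - Real.log l₁) * h (t - Real.log l₂) =
            (h (s - Real.log l₁) - h (t - Real.log l₁)) * h (s - Real.log l₂) +
            h (t - Real.log l₁) * (h (s - Real.log l₂) - h (t - Real.log l₂)) := by ring
        rw [e]
        refine (abs_add_le _ _).trans ?_
        rw [abs_mul, abs_mul]
        have c1 : |h (s - Real.log l₁) - h (t - Real.log l₁)| ≤ |s - t| := by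
          refine (h2 _ _).trans ?_
          have : s - Real.log l₁ - (t - Real.log l₁) = s - t := by ring
          rw [this]
          exact div_le_self (abs_nonneg _) hU
        have c2 : |h (s - Real.log l₂) - h (t - Real.log l₂)| ≤ |s - t| := by
          refine (h2 _ _).trans ?_
          have : s - Real.log l₂ - (t - Real.log l₂) = s - t := by ring
          rw [this]
          exact div_le_self (abs_nonneg _) hU
        have d1 := mul_le_mul c1 (h1 (s - Real.log l₂)) (abs_nonneg _) (abs_nonneg _)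
        have d2 := mul_le_mul (h1 (t - Real.log l₁)) c2 (abs_nonneg _) (by norm_num)
        linarith)
      (Nat.lcm l₁ l₂) hl hx₁0 hT2 (fun t ht => by
        have hl₁M : Real.log l₁ ≤ Real.log Y :=
          Real.log_le_log (by exact_mod_cast hl₁.1) (by
            have : (l₁ : ℝ) ≤ M := by exact_mod_cast hl₁.2
            linarith)
        have : B ≤ t - Real.log l₁ := by
          have := le_abs_self B
          linarith
        show h (t - Real.log l₁) * h (t - Real.log l₂) = 0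
        rw [h3 _ this, zero_mul]) N' hN'T
    have h7 : 0 ≤ 7 / x₁ := by positivity
    calc _ ≤ 1 * (7 / x₁) := mul_le_mul hb hc (abs_nonneg _) (by norm_num)
      _ = 7 / x₁ := one_mul _
  -- the main term
  obtain ⟨Q, hQ⟩ : ∃ Q : ℝ, Q = C * (1 / Real.log Y + 1 / U) ^ 2 * (1 + Real.log Y) := ⟨_, rfl⟩
  have hQ0 : 0 ≤ Q := by rw [hQ]; positivity
  have hform : ∀ t : ℝ, ∑ l₁ ∈ Icc 1 M, ∑ l₂ ∈ Icc 1 M, (a l₁ * a l₂) *
      ((1 / ((Nat.lcm l₁ l₂ : ℕ) : ℝ)) * (h (t - Real.log l₁) * h (t - Real.log l₂))) ≤ Q := by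
    intro t
    have h4 := hQF M 1 (1 / Real.log Y + 1 / U) (Gt Y h t) hM1 le_rfl (by norm_num) (by positivity)
      (fun l hl => by
        unfold Gt
        rw [PL_zero Y hY1 l, zero_mul]
        rw [hM] at hl
        exact (Nat.lt_of_floor_lt hl).le)
      (Gt_abs hY1 h1 t) (fun d k hd hk => Gt_lip hY1 hU h1 h2 t hd hk)
    have h5 : ∑ l₁ ∈ Icc 1 M, ∑ l₂ ∈ Icc 1 M, (a l₁ * a l₂) *
      ((1 / ((Nat.lcm l₁ l₂ : ℕ) : ℝ)) * (h (t - Real.log l₁) * h (t - Real.log l₂))) =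
        ∑ l₁ ∈ Icc 1 M, ∑ l₂ ∈ Icc 1 M, mu l₁ * mu l₂ * Gt Y h t l₁ * Gt Y h t l₂ /
          ((Nat.lcm l₁ l₂ : ℕ) : ℝ) ^ (1 : ℝ) := by
      refine Finset.sum_congr rfl fun l₁ _ => Finset.sum_congr rfl fun l₂ _ => ?_
      rw [Real.rpow_one, ha]
      unfold Gt
      simp only
      ring
    rw [h5]
    refine h4.trans ?_
    rw [hQ, sub_self, add_zero]
    have h6 : Real.log M ≤ Real.log Y := Real.log_le_log (by exact_mod_cast hM1) hMY
    gcongr
  have hmain : ∑ l₁ ∈ Icc 1 M, ∑ l₂ ∈ Icc 1 M, (a l₁ * a l₂) *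
      ((1 / ((Nat.lcm l₁ l₂ : ℕ) : ℝ)) * ∫ t in (Real.log x₁)..T,
          h (t - Real.log l₁) * h (t - Real.log l₂)) ≤ Q * (T - Real.log x₁) := by
    have hc2 : ∀ l₁ l₂ : ℕ, Continuous fun t : ℝ => (a l₁ * a l₂) *
      ((1 / ((Nat.lcm l₁ l₂ : ℕ) : ℝ)) * (h (t - Real.log l₁) * h (t - Real.log l₂))) := by
      intro l₁ l₂
      exact continuous_const.mul (continuous_const.mul
        ((hcont.comp (continuous_id.sub continuous_const)).mul
          (hcont.comp (continuous_id.sub continuous_const))))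
    have h4 : ∑ l₁ ∈ Icc 1 M, ∑ l₂ ∈ Icc 1 M, (a l₁ * a l₂) *
      ((1 / ((Nat.lcm l₁ l₂ : ℕ) : ℝ)) * ∫ t in (Real.log x₁)..T,
          h (t - Real.log l₁) * h (t - Real.log l₂)) =
        ∫ t in (Real.log x₁)..T, ∑ l₁ ∈ Icc 1 M, ∑ l₂ ∈ Icc 1 M, (a l₁ * a l₂) *
          ((1 / ((Nat.lcm l₁ l₂ : ℕ) : ℝ)) * (h (t - Real.log l₁) * h (t - Real.log l₂))) := by
      rw [intervalIntegral.integral_finsetSum fun l₁ _ =>
        (continuous_finsetSum _ fun l₂ _ => hc2 l₁ l₂).intervalIntegrable _ _]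
      refine Finset.sum_congr rfl fun l₁ _ => ?_
      rw [intervalIntegral.integral_finsetSum fun l₂ _ => (hc2 l₁ l₂).intervalIntegrable _ _]
      refine Finset.sum_congr rfl fun l₂ _ => ?_
      rw [intervalIntegral.integral_const_mul, intervalIntegral.integral_const_mul]
    rw [h4]
    have h5 : ∫ t in (Real.log x₁)..T, ∑ l₁ ∈ Icc 1 M, ∑ l₂ ∈ Icc 1 M, (a l₁ * a l₂) *
          ((1 / ((Nat.lcm l₁ l₂ : ℕ) : ℝ)) * (h (t - Real.log l₁) * h (t - Real.log l₂))) ≤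
        ∫ t in (Real.log x₁)..T, Q := by
      refine intervalIntegral.integral_mono hT2 ?_ (continuous_const.intervalIntegrable _ _) hform
      exact (continuous_finsetSum _ fun l₁ _ =>
        continuous_finsetSum _ fun l₂ _ => hc2 l₁ l₂).intervalIntegrable _ _
    refine h5.trans (le_of_eq ?_)
    rw [intervalIntegral.integral_const, smul_eq_mul]
    ring
  -- the total error
  have herr : ∑ l₁ ∈ Icc 1 M, ∑ l₂ ∈ Icc 1 M, (a l₁ * a l₂) *
        ∑ n ∈ (Icc 1 N').filter (fun n : ℕ => x₁ < (n : ℝ)),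
          (if Nat.lcm l₁ l₂ ∣ n then (h (Real.log n - Real.log l₁) * h (Real.log n - Real.log l₂)) / n
            else 0) ≤ ∑ l₁ ∈ Icc 1 M, ∑ l₂ ∈ Icc 1 M, ((a l₁ * a l₂) *
      ((1 / ((Nat.lcm l₁ l₂ : ℕ) : ℝ)) * ∫ t in (Real.log x₁)..T,
          h (t - Real.log l₁) * h (t - Real.log l₂)) + 7 / x₁) := by
    refine Finset.sum_le_sum fun l₁ hl₁ => Finset.sum_le_sum fun l₂ hl₂ => ?_
    have := (abs_le.1 (hcmp l₁ hl₁ l₂ hl₂)).2
    linarith
  have hcnt : ∑ l₁ ∈ Icc 1 M, ∑ l₂ ∈ Icc 1 M, (7 / x₁ : ℝ) ≤ 7 := by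
    simp only [Finset.sum_const, Nat.card_Icc, Nat.add_sub_cancel, nsmul_eq_mul]
    have h4 : (M : ℝ) * (M * (7 / x₁)) = 7 * (M * M / x₁) := by ring
    rw [h4]
    have h5 : (M : ℝ) * M / x₁ ≤ 1 := by
      rw [div_le_one hx₁0]
      have h6 : (M : ℝ) * M ≤ Y * Y := by gcongr
      nlinarith [mul_nonneg (show 0 ≤ Y by linarith) (show 0 ≤ Y by linarith)]
    linarith
  refine herr.trans ?_
  simp only [Finset.sum_add_distrib]
  have hB := abs_nonneg B
  have h8 : Q * (T - Real.log x₁) ≤ Q * (|B| + Real.log Y) := mul_le_mul_of_nonneg_left hT3 hQ0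
  have h9 : Q * (|B| + Real.log Y) = C * ((|B| + Real.log Y) * (1 / Real.log Y + 1 / U) ^ 2 *
      (1 + Real.log Y)) := by rw [hQ]; ring
  have h10 : 0 ≤ (|B| + Real.log Y) * (1 / Real.log Y + 1 / U) ^ 2 * (1 + Real.log Y) := by
    positivity
  have h11 : (C + 7) * ((|B| + Real.log Y) * (1 / Real.log Y + 1 / U) ^ 2 * (1 + Real.log Y) + 1) =
      C * ((|B| + Real.log Y) * (1 / Real.log Y + 1 / U) ^ 2 * (1 + Real.log Y)) + C +
      7 * ((|B| + Real.log Y) * (1 / Real.log Y + 1 / U) ^ 2 * (1 + Real.log Y)) + 7 := by ring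
  rw [h11]
  linarith

end Pool.Agent.Run7.h136.PV
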