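import Pool.Agent.Run7.h136.PV.Tot

/-!
# Project PV (helper343), job DUAL
-/

set_option autoImplicit false

namespace Pool.Agent.Run7.h136.PV

open Finset Pool.Agent.Run7.h343.PV

theorem t_DUAL (hLIP : S_LIP) (hTAIL : S_TAIL) : S_DUAL := by
  obtain ⟨CL, hCL, hLIP⟩ := hLIP
  refine ⟨3 * CL + 6, by linarith, ?_⟩
  intro p ν m N Y U u w χ hp hm hmν hPN hpu hY hU hw1 hw2
  have hY1 : 1 < Y := by linarith
  have hlY : 0 < Real.log Y := Real.log_pos hY1
  have hU0 : 0 < U := by linarith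
  obtain ⟨M, hM⟩ : ∃ M : ℕ, M = ⌊Y⌋₊ := ⟨_, rfl⟩
  have hM1 : 1 ≤ M := by rw [hM]; exact Nat.le_floor (by push_cast; linarith)
  have hMY : (M : ℝ) ≤ Y := by rw [hM]; exact Nat.floor_le (by linarith)
  have hM1' : (1 : ℝ) ≤ M := by exact_mod_cast hM1
  obtain ⟨P, hP⟩ : ∃ P : ℕ, P = p ^ m := ⟨_, rfl⟩
  have hPR : (p : ℝ) ^ m = P := by rw [hP]; push_cast; rfl
  have hp0 : 0 < p := hp.pos
  have hP1 : 1 ≤ P := by rw [hP]; exact Nat.one_le_pow _ _ hp0
  have hP0 : (0 : ℝ) < P := by exact_mod_cast hP1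
  rw [← hP] at hPN
  rw [← hM, ← hP, hPR]
  obtain ⟨F, hF⟩ : ∃ F : ℕ → ℕ → ℂ, F = fun (n l : ℕ) =>
    (starRingEnd ℂ) (χ (n : ZMod (p ^ ν))) * χ (l : ZMod (p ^ ν)) *
      ((mu l * PL Y l * w (Real.log n) / Real.sqrt ((n : ℝ) * l) : ℝ) : ℂ) := ⟨_, rfl⟩
  have hgoal : ∑ l ∈ Icc 1 M, ∑ n ∈ (Icc 1 N).filter (fun n : ℕ => (P : ℤ) ∣ (n : ℤ) - u * l),
      (starRingEnd ℂ) (χ (n : ZMod (p ^ ν))) * χ (l : ZMod (p ^ ν)) *
        ((mu l * PL Y l * w (Real.log n) / Real.sqrt ((n : ℝ) * l) : ℝ) : ℂ) =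
      ∑ l ∈ Icc 1 M, ∑ n ∈ (Icc 1 N).filter (fun n : ℕ => (P : ℤ) ∣ (n : ℤ) - u * l), F n l := by
    rw [hF]
  rw [hgoal]
  -- bounds and zeros
  have hw : ∀ (n l : ℕ), |mu l * PL Y l * w (Real.log n)| ≤ 1 := by
    intro n l
    rw [abs_mul, abs_mul, abs_of_nonneg (PL_nonneg Y l)]
    have h1 := mul_le_mul (mu_abs l) (PL_le Y hY1 l) (PL_nonneg Y l) (by norm_num)
    have h2 := mul_le_mul h1 (hw1 (Real.log n)) (abs_nonneg _) (by norm_num)
    linarith
  have hFn : ∀ n l : ℕ, ‖F n l‖ ≤ 1 / Real.sqrt ((n : ℝ) * l) := by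
    intro n l
    rw [hF]
    simp only
    rw [norm_mul, norm_mul, RCLike.norm_conj, Complex.norm_real, Real.norm_eq_abs, abs_div,
      abs_of_nonneg (Real.sqrt_nonneg _)]
    have h1 := DirichletCharacter.norm_le_one χ (n : ZMod (p ^ ν))
    have h2 := DirichletCharacter.norm_le_one χ (l : ZMod (p ^ ν))
    have h3 := mul_le_mul h1 h2 (norm_nonneg _) (by norm_num)
    have h4 : |mu l * PL Y l * w (Real.log n)| / Real.sqrt ((n : ℝ) * l) ≤
        1 / Real.sqrt ((n : ℝ) * l) := div_le_div_of_nonneg_right (hw n l) (Real.sqrt_nonneg _)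
    have h5 := mul_le_mul h3 h4 (by positivity) (by norm_num)
    linarith
  have hF0 : ∀ n l : ℕ, (p ∣ n ∨ p ∣ l) → F n l = 0 := by
    intro n l h
    rw [hF]
    simp only
    rcases h with h | h
    · rw [chi_zero (by omega) hp χ h]
      simp
    · rw [chi_zero (by omega) hp χ h]
      simp
  -- the split
  obtain ⟨T, hT⟩ : ∃ T : Finset (ℕ × ℕ), T = (Icc 1 N ×ˢ Icc 1 M).filter (fun x : ℕ × ℕ =>
    2 * M * x.1 < P ∧ (P : ℤ) ∣ (x.1 : ℤ) - u * x.2 ∧ ¬ p ∣ x.1 ∧ ¬ p ∣ x.2) := ⟨_, rfl⟩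
  have hsplit : ∑ l ∈ Icc 1 M, ∑ n ∈ (Icc 1 N).filter (fun n : ℕ => (P : ℤ) ∣ (n : ℤ) - u * l),
      F n l = (∑ l ∈ Icc 1 M, ∑ n ∈ (Icc 1 N).filter
        (fun n : ℕ => P ≤ 2 * M * n ∧ (P : ℤ) ∣ (n : ℤ) - u * l), F n l) +
        ∑ x ∈ T, F x.1 x.2 := by
    rw [hT, Finset.sum_filter, Finset.sum_product_right, ← Finset.sum_add_distrib]
    refine Finset.sum_congr rfl fun l _ => ?_
    rw [Finset.sum_filter, Finset.sum_filter, ← Finset.sum_add_distrib]
    refine Finset.sum_congr rfl fun n _ => ?_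
    by_cases c1 : (P : ℤ) ∣ (n : ℤ) - u * l
    · by_cases c2 : P ≤ 2 * M * n
      · simp [c1, c2]
      · by_cases c3 : p ∣ n
        · simp [c1, c2, c3, hF0 n l (Or.inl c3)]
        · by_cases c4 : p ∣ l
          · simp [c1, c2, c4, hF0 n l (Or.inr c4)]
          · simp [c1, c2, c3, c4, not_le.1 c2]
    · simp [c1]
  rw [hsplit]
  -- the first part
  have hA : ‖∑ l ∈ Icc 1 M, ∑ n ∈ (Icc 1 N).filter
        (fun n : ℕ => P ≤ 2 * M * n ∧ (P : ℤ) ∣ (n : ℤ) - u * l), F n l‖ ≤
      4 * M * (Real.sqrt ((M : ℝ) / P) + Real.sqrt N / P) := by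
    refine (norm_sum_le _ _).trans ?_
    refine le_trans (Finset.sum_le_sum fun l _ => (norm_sum_le _ _).trans
      (Finset.sum_le_sum fun n _ => hFn n l)) ?_
    exact hTAIL M P N (fun l => u * l) hM1 hP1
  have hA2 : 4 * M * (Real.sqrt ((M : ℝ) / P) + Real.sqrt N / P) ≤
      4 * Y ^ 2 * (1 / Real.sqrt P + Real.sqrt N / P) := by
    have hsM : Real.sqrt M ≤ M := by
      rw [Real.sqrt_le_left (by linarith)]
      nlinarith
    have h1 : (M : ℝ) * Real.sqrt ((M : ℝ) / P) ≤ Y ^ 2 * (1 / Real.sqrt P) := by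
      rw [Real.sqrt_div (by linarith)]
      have h2 : (M : ℝ) * Real.sqrt M ≤ Y ^ 2 := by
        calc (M : ℝ) * Real.sqrt M ≤ Y * Y := by
              have : Real.sqrt M ≤ Y := hsM.trans hMY
              gcongr
          _ = Y ^ 2 := by ring
      calc (M : ℝ) * (Real.sqrt M / Real.sqrt P) = (M * Real.sqrt M) * (1 / Real.sqrt P) := by ring
        _ ≤ Y ^ 2 * (1 / Real.sqrt P) := by gcongr
    have h3 : (M : ℝ) * (Real.sqrt N / P) ≤ Y ^ 2 * (Real.sqrt N / P) := by
      have : (M : ℝ) ≤ Y ^ 2 := by nlinarith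
      gcongr
    calc 4 * M * (Real.sqrt ((M : ℝ) / P) + Real.sqrt N / P) =
        4 * (M * Real.sqrt ((M : ℝ) / P) + M * (Real.sqrt N / P)) := by ring
      _ ≤ 4 * (Y ^ 2 * (1 / Real.sqrt P) + Y ^ 2 * (Real.sqrt N / P)) := by gcongr
      _ = _ := by ring
  -- the second part
  obtain ⟨Λ, hΛ⟩ : ∃ Λ : ℝ, Λ = 1 / Real.log Y + 1 / U := ⟨_, rfl⟩
  have hΛ0 : 0 ≤ Λ := by rw [hΛ]; positivity
  have hB : ‖∑ x ∈ T, F x.1 x.2‖ ≤ 3 * CL * Λ + 2 * Y ^ 2 * (1 / Real.sqrt P) := by
    rcases T.eq_empty_or_nonempty with hTe | ⟨⟨n₁, l₁⟩, hx₁⟩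
    · rw [hTe]
      simp only [Finset.sum_empty, norm_zero]
      positivity
    · have hmem : ∀ n l : ℕ, (n, l) ∈ T ↔ ((1 ≤ n ∧ n ≤ N) ∧ (1 ≤ l ∧ l ≤ M)) ∧
          (2 * M * n < P ∧ (P : ℤ) ∣ (n : ℤ) - u * l ∧ ¬ p ∣ n ∧ ¬ p ∣ l) := by
        intro n l
        rw [hT, Finset.mem_filter, Finset.mem_product, Finset.mem_Icc, Finset.mem_Icc]
      rw [hmem] at hx₁
      obtain ⟨⟨⟨a1, a2⟩, a3, a4⟩, a5, a6, a7, a8⟩ := hx₁
      obtain ⟨n₀, l₀, hco, hn₀, hl₀⟩ := Nat.exists_coprime n₁ l₁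
      obtain ⟨d, hd⟩ : ∃ d : ℕ, d = Nat.gcd n₁ l₁ := ⟨_, rfl⟩
      rw [← hd] at hn₀ hl₀
      have hd1 : 1 ≤ d := by
        rcases Nat.eq_zero_or_pos d with h | h
        · rw [h] at hn₀
          omega
        · exact h
      have hn₀1 : 1 ≤ n₀ := by
        rcases Nat.eq_zero_or_pos n₀ with h | h
        · rw [h] at hn₀
          omega
        · exact h
      have hl₀1 : 1 ≤ l₀ := by
        rcases Nat.eq_zero_or_pos l₀ with h | h
        · rw [h] at hl₀
          omega
        · exact h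
      have hn₀P : 2 * M * n₀ < P := by
        have : n₀ ≤ n₁ := by rw [hn₀]; exact Nat.le_mul_of_pos_right _ hd1
        exact lt_of_le_of_lt (Nat.mul_le_mul_left _ this) a5
      have hl₀M : l₀ ≤ M := by
        have : l₀ ≤ l₁ := by rw [hl₀]; exact Nat.le_mul_of_pos_right _ hd1
        omega
      have hpn₀ : ¬ p ∣ n₀ := fun h => a7 (by rw [hn₀]; exact Dvd.dvd.mul_right h _)
      have hpl₀ : ¬ p ∣ l₀ := fun h => a8 (by rw [hl₀]; exact Dvd.dvd.mul_right h _)
      have hpd : ¬ p ∣ d := fun h => a7 (by rw [hn₀]; exact Dvd.dvd.mul_left h _)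
      have hcong : (P : ℤ) ∣ (n₀ : ℤ) - u * l₀ := by
        have h1 : IsCoprime (P : ℤ) (d : ℤ) := by
          rw [Nat.isCoprime_iff_coprime, hP]
          exact Nat.Coprime.pow_left m (hp.coprime_iff_not_dvd.2 hpd)
        refine h1.dvd_of_dvd_mul_right ?_
        have h2 : ((n₀ : ℤ) - u * l₀) * d = (n₁ : ℤ) - u * l₁ := by
          rw [hn₀, hl₀]
          push_cast
          ring
        rw [h2]
        exact a6
      -- all pairs are multiples
      have key : ∀ n l : ℕ, (n, l) ∈ T → ∃ k : ℕ, n = n₀ * k ∧ l = l₀ * k := by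
        intro n l hx
        rw [hmem] at hx
        obtain ⟨⟨⟨b1, b2⟩, b3, b4⟩, b5, b6, b7, b8⟩ := hx
        have h1 : (P : ℤ) ∣ (n : ℤ) * l₀ - l * n₀ := by
          have e : (n : ℤ) * l₀ - l * n₀ = l₀ * ((n : ℤ) - u * l) - l * ((n₀ : ℤ) - u * l₀) := by ring
          rw [e]
          exact dvd_sub (Dvd.dvd.mul_left b6 _) (Dvd.dvd.mul_left hcong _)
        have h2 : |(n : ℤ) * l₀ - l * n₀| < P := by
          have c1 : n * l₀ ≤ n * M := Nat.mul_le_mul_left _ hl₀M
          have c2 : l * n₀ ≤ M * n₀ := Nat.mul_le_mul_right _ b4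
          have c3 : 2 * (n * l₀) < P := by
            calc 2 * (n * l₀) ≤ 2 * (n * M) := by omega
              _ = 2 * M * n := by ring
              _ < P := b5
          have c4 : 2 * (l * n₀) < P := by
            calc 2 * (l * n₀) ≤ 2 * (M * n₀) := by omega
              _ = 2 * M * n₀ := by ring
              _ < P := hn₀P
          rw [abs_lt]
          have c3' : (2 : ℤ) * ((n : ℤ) * l₀) < P := by exact_mod_cast c3
          have c4' : (2 : ℤ) * ((l : ℤ) * n₀) < P := by exact_mod_cast c4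
          have c5 : (0 : ℤ) ≤ (n : ℤ) * l₀ := by positivity
          have c6 : (0 : ℤ) ≤ (l : ℤ) * n₀ := by positivity
          constructor <;> linarith
        have h3 := Int.eq_zero_of_abs_lt_dvd h1 h2
        have h4 : n * l₀ = l * n₀ := by
          have : (n : ℤ) * l₀ = l * n₀ := by linarith
          exact_mod_cast this
        have h5 : l₀ ∣ l := by
          refine Nat.Coprime.dvd_of_dvd_mul_right hco.symm ?_
          rw [← h4]
          exact dvd_mul_left _ _
        obtain ⟨k, rfl⟩ := h5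
        refine ⟨k, ?_, rfl⟩
        refine Nat.eq_of_mul_eq_mul_right (show 0 < l₀ by omega) ?_
        rw [h4]
        ring
      -- reindexing
      obtain ⟨𝒦, h𝒦⟩ : ∃ 𝒦 : Finset ℕ, 𝒦 = (Icc 1 (M / l₀)).filter
        (fun k : ℕ => ¬ p ∣ k ∧ 2 * M * (n₀ * k) < P) := ⟨_, rfl⟩
      have h𝒦mem : ∀ k, k ∈ 𝒦 ↔ (1 ≤ k ∧ k ≤ M / l₀) ∧ (¬ p ∣ k ∧ 2 * M * (n₀ * k) < P) := by
        intro k
        rw [h𝒦, Finset.mem_filter, Finset.mem_Icc]
      have hre : ∑ x ∈ T, F x.1 x.2 = ∑ k ∈ 𝒦, F (n₀ * k) (l₀ * k) := by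
        refine Finset.sum_nbij' (fun x => x.2 / l₀) (fun k => (n₀ * k, l₀ * k)) ?_ ?_ ?_ ?_ ?_
        · rintro ⟨n, l⟩ hx
          obtain ⟨k, rfl, rfl⟩ := key n l hx
          rw [hmem] at hx
          obtain ⟨⟨⟨b1, b2⟩, b3, b4⟩, b5, b6, b7, b8⟩ := hx
          rw [h𝒦mem]
          simp only
          rw [Nat.mul_div_cancel_left _ (show 0 < l₀ by omega)]
          refine ⟨⟨?_, ?_⟩, ?_, b5⟩
          · rcases Nat.eq_zero_or_pos k with h | h
            · rw [h] at b1
              omega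
            · exact h
          · rw [Nat.le_div_iff_mul_le (by omega), mul_comm]
            exact b4
          · exact fun h => b7 (Dvd.dvd.mul_left h _)
        · intro k hk
          rw [h𝒦mem] at hk
          obtain ⟨⟨c1, c2⟩, c3, c4⟩ := hk
          rw [hmem]
          have hk1 : l₀ * k ≤ M := by
            rw [mul_comm]
            exact (Nat.le_div_iff_mul_le (by omega)).1 c2
          refine ⟨⟨⟨?_, ?_⟩, ?_, hk1⟩, c4, ?_, ?_, ?_⟩
          · exact Nat.mul_pos (by omega) (by omega)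
          · have : n₀ * k ≤ 2 * M * (n₀ * k) := Nat.le_mul_of_pos_left _ (by omega)
            omega
          · exact Nat.mul_pos (by omega) (by omega)
          · have e : ((n₀ * k : ℕ) : ℤ) - u * ((l₀ * k : ℕ) : ℤ) = k * ((n₀ : ℤ) - u * l₀) := by
              push_cast
              ring
            rw [e]
            exact Dvd.dvd.mul_left hcong _
          · exact fun h => (hp.dvd_mul.1 h).elim hpn₀ c3
          · exact fun h => (hp.dvd_mul.1 h).elim hpl₀ c3
        · rintro ⟨n, l⟩ hx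
          obtain ⟨k, rfl, rfl⟩ := key n l hx
          simp only
          rw [Nat.mul_div_cancel_left _ (show 0 < l₀ by omega)]
        · intro k hk
          exact Nat.mul_div_cancel_left _ (show 0 < l₀ by omega)
        · rintro ⟨n, l⟩ hx
          obtain ⟨k, rfl, rfl⟩ := key n l hx
          simp only
          rw [Nat.mul_div_cancel_left _ (show 0 < l₀ by omega)]
      rw [hre]
      have hl₀R : (1 : ℝ) ≤ l₀ := by exact_mod_cast hl₀1
      have hn₀R : (1 : ℝ) ≤ n₀ := by exact_mod_cast hn₀1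
      have hKM : M / l₀ ≤ M := Nat.div_le_self _ _
      rcases le_or_gt P (2 * M * (M * n₀)) with hc | hc
      · -- the lattice vector is long
        have h1 : ∀ k ∈ 𝒦, ‖F (n₀ * k) (l₀ * k)‖ ≤ 2 * M * (1 / Real.sqrt P) := by
          intro k hk
          rw [h𝒦mem] at hk
          have hk1 : (1 : ℝ) ≤ k := by exact_mod_cast hk.1.1
          refine (hFn _ _).trans ?_
          push_cast
          have h2 : Real.sqrt P ≤ 2 * M * Real.sqrt ((n₀ : ℝ) * k * (l₀ * k)) := by
            have h3 : (P : ℝ) ≤ (2 * M) ^ 2 * ((n₀ : ℝ) * k * (l₀ * k)) := by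
              have h4 : (P : ℝ) ≤ 2 * M * (M * n₀) := by exact_mod_cast hc
              have h5 : (n₀ : ℝ) ≤ (n₀ : ℝ) * k * (l₀ * k) := by
                have h6 : (1 : ℝ) ≤ k * (l₀ * k) := by
                  have := mul_le_mul hl₀R hk1 (by norm_num) (by linarith)
                  have := mul_le_mul hk1 this (by norm_num) (by linarith)
                  linarith
                have : (n₀ : ℝ) * 1 ≤ (n₀ : ℝ) * (k * (l₀ * k)) := by gcongr
                linarith
              have h7 : (2 * (M : ℝ)) ^ 2 * n₀ ≤ (2 * M) ^ 2 * ((n₀ : ℝ) * k * (l₀ * k)) := by gcongr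
              have h8 : 0 ≤ (M : ℝ) * (M * n₀) := by positivity
              nlinarith
            calc Real.sqrt P ≤ Real.sqrt ((2 * M) ^ 2 * ((n₀ : ℝ) * k * (l₀ * k))) :=
                  Real.sqrt_le_sqrt h3
              _ = 2 * M * Real.sqrt ((n₀ : ℝ) * k * (l₀ * k)) := by
                  rw [Real.sqrt_mul (by positivity), Real.sqrt_sq (by positivity)]
          have h9 : 0 < Real.sqrt P := Real.sqrt_pos.2 hP0
          have h10 : 0 < Real.sqrt ((n₀ : ℝ) * k * (l₀ * k)) := by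
            apply Real.sqrt_pos.2
            positivity
          rw [mul_one_div, div_le_div_iff₀ h10 h9]
          linarith
        have h2 : (𝒦.card : ℝ) ≤ M := by
          have h3 : 𝒦.card ≤ M := by
            rw [h𝒦]
            refine (Finset.card_filter_le _ _).trans ?_
            rw [Nat.card_Icc]
            omega
          exact_mod_cast h3
        have h3 : ‖∑ k ∈ 𝒦, F (n₀ * k) (l₀ * k)‖ ≤ 2 * Y ^ 2 * (1 / Real.sqrt P) := by
          refine (norm_sum_le _ _).trans ((Finset.sum_le_sum h1).trans ?_)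
          rw [Finset.sum_const, nsmul_eq_mul]
          calc (𝒦.card : ℝ) * (2 * M * (1 / Real.sqrt P)) ≤ Y * (2 * Y * (1 / Real.sqrt P)) := by
                have : (𝒦.card : ℝ) ≤ Y := h2.trans hMY
                gcongr
            _ = _ := by ring
        have h4 : 0 ≤ 3 * CL * Λ := by positivity
        linarith
      · -- the lattice vector is short
        obtain ⟨G, hG⟩ : ∃ G : ℕ → ℝ, G = fun k => w (Real.log ((n₀ * k : ℕ) : ℝ)) * PL Y (l₀ * k) :=
          ⟨_, rfl⟩
        obtain ⟨K, hK⟩ : ∃ K : ℕ, K = M / l₀ := ⟨_, rfl⟩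
        have hpl0 : 1 ≤ p * l₀ := Nat.mul_pos (by omega) (by omega)
        have h1 := hLIP (p * l₀) hpl0 Λ G K hΛ0 (by
          intro k hk
          rw [hG]
          simp only
          rw [PL_zero Y hY1, mul_zero]
          have h2 : M < l₀ * k := by
            rw [hK, Nat.div_lt_iff_lt_mul (by omega)] at hk
            rw [mul_comm]
            exact hk
          have h3 : ⌊Y⌋₊ < l₀ * k := by rw [← hM]; exact h2
          exact (Nat.lt_of_floor_lt h3).le) (by
          intro k hk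
          rw [hG]
          simp only
          have e : ∀ x x' p' p'' : ℝ, x * p' - x' * p'' = (x - x') * p' + x' * (p' - p'') := by
            intros
            ring
          rw [e, hΛ, add_div]
          refine (abs_add_le _ _).trans ?_
          rw [abs_mul, abs_mul, abs_of_nonneg (PL_nonneg Y _)]
          have c1 : |w (Real.log ((n₀ * (k + 1) : ℕ) : ℝ)) - w (Real.log ((n₀ * k : ℕ) : ℝ))| ≤
              1 / U / k := by
            refine (hw2 _ _).trans ?_
            rw [div_right_comm]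
            exact div_le_div_of_nonneg_right (log_diff hn₀1 hk) hU0.le
          have c2 := PL_lip Y hY1 hl₀1 hk
          have hk0 : (0 : ℝ) < k := by exact_mod_cast hk
          have d1 := mul_le_mul c1 (PL_le Y hY1 (l₀ * (k + 1))) (PL_nonneg Y _) (by positivity)
          have d2 := mul_le_mul (hw1 (Real.log ((n₀ * k : ℕ) : ℝ))) c2 (abs_nonneg _) (by norm_num)
          linarith)
        have hsum : ∑ k ∈ 𝒦, F (n₀ * k) (l₀ * k) =
            (starRingEnd ℂ) (χ (n₀ : ZMod (p ^ ν))) * χ (l₀ : ZMod (p ^ ν)) *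
              ((mu l₀ / Real.sqrt ((n₀ : ℝ) * l₀) *
                ∑ k ∈ (Icc 1 K).filter (fun k => k.Coprime (p * l₀)), mu k / k * G k : ℝ) : ℂ) := by
          rw [h𝒦, Finset.sum_filter, Finset.sum_filter, Finset.mul_sum, Complex.ofReal_sum,
            Finset.mul_sum, ← hK]
          refine Finset.sum_congr rfl fun k hk => ?_
          rw [Finset.mem_Icc] at hk
          have hk0 : (0 : ℝ) < k := by exact_mod_cast hk.1
          have hsmall : 2 * M * (n₀ * k) < P := by
            have h2 : n₀ * k ≤ M * n₀ := by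
              rw [mul_comm]
              exact Nat.mul_le_mul_right _ (by omega)
            exact lt_of_le_of_lt (Nat.mul_le_mul_left _ h2) hc
          by_cases c : p ∣ k
          · have hnc : ¬ k.Coprime (p * l₀) := by
              intro h
              have h2 := Nat.Coprime.coprime_mul_right_right h
              exact hp.coprime_iff_not_dvd.1 h2.symm c
            simp [c, hnc]
          · have hcp : k.Coprime p := (hp.coprime_iff_not_dvd.2 c).symm
            by_cases c2 : k.Coprime l₀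
            · have hcc : k.Coprime (p * l₀) := Nat.Coprime.mul_right hcp c2
              rw [if_pos ⟨c, hsmall⟩, if_pos hcc, hF, hG]
              simp only
              rw [mu_mul c2]
              push_cast
              rw [map_mul, map_mul, map_mul]
              have h2 := chi_one hp χ c
              have h3 : Real.sqrt ((n₀ : ℝ) * k * (l₀ * k)) = k * Real.sqrt ((n₀ : ℝ) * l₀) := by
                have e : (n₀ : ℝ) * k * (l₀ * k) = (k : ℝ) ^ 2 * ((n₀ : ℝ) * l₀) := by ring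
                rw [e, Real.sqrt_mul (by positivity), Real.sqrt_sq hk0.le]
              rw [h3]
              push_cast
              calc (starRingEnd ℂ) (χ (n₀ : ZMod (p ^ ν))) * (starRingEnd ℂ) (χ (k : ZMod (p ^ ν))) *
                    (χ (l₀ : ZMod (p ^ ν)) * χ (k : ZMod (p ^ ν))) *
                    ((mu l₀ : ℂ) * mu k * (PL Y (l₀ * k) : ℂ) * (w (Real.log (n₀ * k)) : ℂ) /
                      ((k : ℂ) * (Real.sqrt ((n₀ : ℝ) * l₀) : ℂ)))
                  = ((starRingEnd ℂ) (χ (k : ZMod (p ^ ν))) * χ (k : ZMod (p ^ ν))) *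
                    ((starRingEnd ℂ) (χ (n₀ : ZMod (p ^ ν))) * χ (l₀ : ZMod (p ^ ν)) *
                    ((mu l₀ : ℂ) * mu k * (PL Y (l₀ * k) : ℂ) * (w (Real.log (n₀ * k)) : ℂ) /
                      ((k : ℂ) * (Real.sqrt ((n₀ : ℝ) * l₀) : ℂ)))) := by ring
                _ = _ := by
                    rw [h2, one_mul]
                    ring
            · have hncc : ¬ k.Coprime (p * l₀) := fun h =>
                c2 (Nat.Coprime.coprime_mul_left_right h)
              rw [if_pos ⟨c, hsmall⟩, if_neg hncc, hF]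
              simp only
              rw [mu_zero c2]
              simp
        rw [hsum, norm_mul, norm_mul, RCLike.norm_conj, Complex.norm_real, Real.norm_eq_abs, abs_mul,
          abs_div, abs_of_nonneg (Real.sqrt_nonneg _)]
        have g1 := DirichletCharacter.norm_le_one χ (n₀ : ZMod (p ^ ν))
        have g2 := DirichletCharacter.norm_le_one χ (l₀ : ZMod (p ^ ν))
        have g3 := mul_le_mul g1 g2 (norm_nonneg _) (by norm_num)
        have g4 : |mu l₀| / Real.sqrt ((n₀ : ℝ) * l₀) ≤ 1 / Real.sqrt ((n₀ : ℝ) * l₀) :=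
          div_le_div_of_nonneg_right (mu_abs l₀) (Real.sqrt_nonneg _)
        have g5 := mul_le_mul g4 h1 (abs_nonneg _) (by positivity)
        have g6 := lead_le hp hl₀1 hn₀1 hpl₀
        have g7 : 1 / Real.sqrt ((n₀ : ℝ) * l₀) *
            (CL * Λ * (((p * l₀ : ℕ) : ℝ) / Nat.totient (p * l₀))) ≤ 3 * CL * Λ := by
          have e : 1 / Real.sqrt ((n₀ : ℝ) * l₀) *
            (CL * Λ * (((p * l₀ : ℕ) : ℝ) / Nat.totient (p * l₀))) =
              CL * Λ * (1 / Real.sqrt ((n₀ : ℝ) * l₀) *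
                (((p * l₀ : ℕ) : ℝ) / Nat.totient (p * l₀))) := by ring
          rw [e]
          have : 0 ≤ CL * Λ := by positivity
          nlinarith
        have g8 := mul_le_mul g3 (g5.trans g7) (by positivity) (by norm_num)
        have g9 : 0 ≤ 2 * Y ^ 2 * (1 / Real.sqrt P) := by positivity
        linarith
  refine (norm_add_le _ _).trans ((add_le_add (hA.trans hA2) hB).trans ?_)
  rw [← hΛ]
  have h1 : 0 ≤ Y ^ 2 * (1 / Real.sqrt P) := by positivity
  have h2 : 0 ≤ Y ^ 2 * (Real.sqrt N / P) := by positivity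
  have h3 : 0 ≤ CL * (Y ^ 2 * (1 / Real.sqrt P)) := by positivity
  have h4 : 0 ≤ CL * (Y ^ 2 * (Real.sqrt N / P)) := by positivity
  have e : (3 * CL + 6) * Λ + (3 * CL + 6) * Y ^ 2 * (1 / Real.sqrt P + Real.sqrt N / P) =
      3 * CL * Λ + 6 * Λ + 3 * (CL * (Y ^ 2 * (1 / Real.sqrt P))) +
      3 * (CL * (Y ^ 2 * (Real.sqrt N / P))) + 6 * (Y ^ 2 * (1 / Real.sqrt P)) +
      6 * (Y ^ 2 * (Real.sqrt N / P)) := by ring
  rw [e]
  linarith

end Pool.Agent.Run7.h136.PV
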