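import Pool.Agent.Run7.h343.PV.Iface4
import Pool.Agent.Run7.h216.PV.FM1
import Pool.Agent.H398R3.NA.Base

/-!
# Project PV (helper343), job FM1D: the first moment over the `d`-th powers, direct part
-/

set_option autoImplicit false

namespace Pool.Agent.Run7.h136.PV

open Finset Pool.Agent.Run7.h343.PV Pool.Agent.Run7.h216.PV

/-- at most `d` residue classes are `d`-th roots of one -/
theorem card_roots {p m : ℕ} [NeZero (p ^ m)] (hp : p.Prime) (hp2 : p ≠ 2) {d : ℕ} (hd : 1 ≤ d) :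
    ((Finset.univ : Finset (ZMod (p ^ m))).filter (fun a => a ^ d = 1)).card ≤ d := by
  classical
  haveI := ZMod.isCyclic_units_of_prime_pow p hp hp2 m
  have h1 : (Finset.univ.filter (fun a : (ZMod (p ^ m))ˣ => a ^ d = 1)).card ≤ d :=
    IsCyclic.card_pow_eq_one_le hd
  have h2 : (Finset.univ : Finset (ZMod (p ^ m))).filter (fun a => a ^ d = 1) ⊆
      (Finset.univ.filter (fun a : (ZMod (p ^ m))ˣ => a ^ d = 1)).image
        (fun u : (ZMod (p ^ m))ˣ => (u : ZMod (p ^ m))) := by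
    intro a ha
    rw [Finset.mem_filter] at ha
    have hu : IsUnit a := by
      refine IsUnit.of_mul_eq_one (a ^ (d - 1)) ?_
      rw [← pow_succ', Nat.sub_add_cancel hd]
      exact ha.2
    rw [Finset.mem_image]
    refine ⟨hu.unit, ?_, hu.unit_spec⟩
    rw [Finset.mem_filter]
    refine ⟨Finset.mem_univ _, Units.ext ?_⟩
    push_cast
    exact ha.2
  exact (Finset.card_le_card h2).trans (Finset.card_image_le.trans h1)

theorem sum_twd {p ν m : ℕ} (hmν : m ≤ ν) [NeZero (p ^ m)] (χ : DirichletCharacter ℂ (p ^ ν))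
    {d : ℕ} (hd : 1 ≤ d) (k : ℤ) :
    ∑ θ : DirichletCharacter ℂ (p ^ m), tw hmν χ (θ ^ d) (k : ZMod (p ^ ν)) =
      ((Nat.totient (p ^ m) : ℕ) : ℂ) *
        (χ (k : ZMod (p ^ ν)) * if (k : ZMod (p ^ m)) ^ d = 1 then 1 else 0) := by
  simp_rw [tw_apply]
  have e : ∀ θ : DirichletCharacter ℂ (p ^ m), (θ ^ d) (k : ZMod (p ^ m)) =
      θ ((k : ZMod (p ^ m)) ^ d) := by
    intro θ
    rw [MulChar.pow_apply' θ (by omega), map_pow]
  simp_rw [e]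
  rw [← Finset.mul_sum, DirichletCharacter.sum_characters_eq]
  split_ifs <;> ring

theorem expand_d {p ν m N : ℕ} (hmν : m ≤ ν) (χ : DirichletCharacter ℂ (p ^ ν))
    (Y : ℝ) (w : ℝ → ℝ) (θ : DirichletCharacter ℂ (p ^ m)) :
    Mol Y (tw hmν χ θ) * AA N w (tw hmν χ θ) =
      ∑ l ∈ Icc 1 ⌊Y⌋₊, ∑ n ∈ Icc 1 N, ((cc Y w l n : ℝ) : ℂ) *
        tw hmν χ θ (((l * n : ℕ) : ℤ) : ZMod (p ^ ν)) := by
  unfold Mol AA
  rw [Finset.sum_mul_sum]
  refine Finset.sum_congr rfl fun l _ => ?_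
  refine Finset.sum_congr rfl fun n _ => ?_
  have h1 : tw hmν χ θ (((l * n : ℕ) : ℤ) : ZMod (p ^ ν)) =
      tw hmν χ θ (l : ZMod (p ^ ν)) * tw hmν χ θ (n : ZMod (p ^ ν)) := by
    rw [← map_mul]
    congr 1
    push_cast
    ring
  rw [h1]
  unfold cc
  push_cast
  ring

/-- the terms -/
noncomputable def Td {p ν : ℕ} (m d : ℕ) (χ : DirichletCharacter ℂ (p ^ ν)) (Y : ℝ) (w : ℝ → ℝ)
    (l n : ℕ) : ℂ :=
  ((cc Y w l n : ℝ) : ℂ) * (χ (((l * n : ℕ) : ℤ) : ZMod (p ^ ν)) *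
    if ((((l * n : ℕ) : ℤ)) : ZMod (p ^ m)) ^ d = 1 then 1 else 0)

theorem total_d {p ν m N d : ℕ} (hmν : m ≤ ν) [NeZero (p ^ m)] (χ : DirichletCharacter ℂ (p ^ ν))
    (Y : ℝ) (w : ℝ → ℝ) (hd : 1 ≤ d) :
    ∑ θ : DirichletCharacter ℂ (p ^ m), Mol Y (tw hmν χ (θ ^ d)) * AA N w (tw hmν χ (θ ^ d)) =
      ((Nat.totient (p ^ m) : ℕ) : ℂ) * ∑ l ∈ Icc 1 ⌊Y⌋₊, ∑ n ∈ Icc 1 N, Td m d χ Y w l n := by
  simp_rw [expand_d]
  rw [Finset.sum_comm, Finset.mul_sum]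
  refine Finset.sum_congr rfl fun l _ => ?_
  rw [Finset.sum_comm, Finset.mul_sum]
  refine Finset.sum_congr rfl fun n _ => ?_
  rw [← Finset.mul_sum, sum_twd hmν χ hd]
  unfold Td
  ring

/-- the residue classes of the tails -/
noncomputable def ud (M : ℕ) (ω : ZMod M) (l : ℕ) : ℤ := ((ω * (l : ZMod M)⁻¹).val : ℤ)

theorem ud_dvd {M l n d : ℕ} [NeZero M] (hd : 1 ≤ d)
    (h : ((((l * n : ℕ) : ℤ)) : ZMod M) ^ d = 1) :
    (M : ℤ) ∣ (n : ℤ) - ud M ((((l * n : ℕ) : ℤ)) : ZMod M) l := by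
  rw [← ZMod.intCast_zmod_eq_zero_iff_dvd]
  unfold ud
  have hu : IsUnit (l : ZMod M) := by
    refine IsUnit.of_mul_eq_one ((n : ZMod M) * ((((l * n : ℕ) : ℤ)) : ZMod M) ^ (d - 1)) ?_
    rw [← mul_assoc]
    have e : (l : ZMod M) * (n : ZMod M) = ((((l * n : ℕ) : ℤ)) : ZMod M) := by
      push_cast
      ring
    rw [e, ← pow_succ', Nat.sub_add_cancel hd]
    exact h
  have h2 := ZMod.inv_mul_of_unit (l : ZMod M) hu
  rw [Int.cast_sub, Int.cast_natCast, Int.cast_natCast, ZMod.natCast_zmod_val]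
  push_cast
  calc (n : ZMod M) - (l : ZMod M) * n * (l : ZMod M)⁻¹ =
      n - n * ((l : ZMod M)⁻¹ * l) := by ring
    _ = 0 := by rw [h2]; ring

/-- the exceptional numbers -/
noncomputable def KK (M d : ℕ) : Finset ℕ :=
  (Icc 2 (M - 1)).filter fun k : ℕ => ((k : ℕ) : ZMod M) ^ d = 1

theorem card_KK {p m : ℕ} [NeZero (p ^ m)] (hp : p.Prime) (hp2 : p ≠ 2) {d : ℕ} (hd : 1 ≤ d) :
    (KK (p ^ m) d).card ≤ d := by
  classical
  refine le_trans ?_ (card_roots (m := m) hp hp2 hd)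
  refine Finset.card_le_card_of_injOn (fun k : ℕ => ((k : ℕ) : ZMod (p ^ m))) ?_ ?_
  · intro k hk
    have hk' := Finset.mem_coe.1 hk
    unfold KK at hk'
    rw [Finset.mem_filter] at hk'
    simp only [Finset.coe_filter, Finset.mem_univ, true_and, Set.mem_setOf_eq]
    exact hk'.2
  · intro a ha b hb hab
    have ha' := Finset.mem_coe.1 ha
    have hb' := Finset.mem_coe.1 hb
    unfold KK at ha' hb'
    rw [Finset.mem_filter, Finset.mem_Icc] at ha' hb'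
    have h1 := congrArg ZMod.val hab
    dsimp only at h1
    rw [ZMod.val_cast_of_lt (by omega), ZMod.val_cast_of_lt (by omega)] at h1
    exact h1

/-- the contribution of one exceptional number -/
theorem one_K {M d k : ℕ} (hd : 1 ≤ d) (hM : 1 ≤ M) (hk : k ∈ KK M d) (L N : ℕ) :
    ∑ l ∈ Icc 1 L, ∑ n ∈ Icc 1 N, (if l * n = k then 1 / Real.sqrt k else 0) ≤
      Pool.Agent.H398R3.NA.D5 * (M : ℝ) ^ (-(1 / (4 * (d : ℝ)))) := by
  unfold KK at hk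
  rw [Finset.mem_filter, Finset.mem_Icc] at hk
  obtain ⟨⟨hk2, hkM⟩, hk3⟩ := hk
  have hk0 : (0 : ℝ) < k := by
    have : 0 < k := by omega
    exact_mod_cast this
  have hs : 0 ≤ 1 / Real.sqrt k := by positivity
  have h1 : ∑ l ∈ Icc 1 L, ∑ n ∈ Icc 1 N, (if l * n = k then 1 / Real.sqrt k else 0) ≤
      ∑ l ∈ Icc 1 L, (if l ∣ k then 1 / Real.sqrt k else 0) := by
    refine Finset.sum_le_sum fun l hl => ?_
    have hl1 := (Finset.mem_Icc.1 hl).1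
    by_cases h : l ∣ k
    · rw [if_pos h]
      obtain ⟨c, hc⟩ := h
      have h2 : ∑ n ∈ Icc 1 N, (if l * n = k then 1 / Real.sqrt k else 0) ≤
          ∑ n ∈ Icc 1 N, (if n = c then 1 / Real.sqrt k else 0) := by
        refine Finset.sum_le_sum fun n _ => ?_
        by_cases h3 : l * n = k
        · have h4 : n = c := Nat.eq_of_mul_eq_mul_left (show 0 < l by omega) (by rw [h3, hc])
          rw [if_pos h3, if_pos h4]
        · rw [if_neg h3]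
          split_ifs
          · exact hs
          · exact le_rfl
      refine h2.trans ?_
      rw [Finset.sum_ite_eq']
      split_ifs
      · exact le_rfl
      · exact hs
    · rw [if_neg h]
      refine le_of_eq (Finset.sum_eq_zero fun n _ => if_neg fun h3 => h ⟨n, h3.symm⟩)
  refine h1.trans ?_
  rw [← Finset.sum_filter, Finset.sum_const, nsmul_eq_mul]
  have h2 : (((Icc 1 L).filter fun l => l ∣ k).card : ℝ) ≤ (k.divisors.card : ℝ) := by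
    have : ((Icc 1 L).filter fun l => l ∣ k).card ≤ k.divisors.card := by
      refine Finset.card_le_card fun l hl => ?_
      rw [Finset.mem_filter] at hl
      exact Nat.mem_divisors.2 ⟨hl.2, by omega⟩
    exact_mod_cast this
  have h3 : (k.divisors.card : ℝ) ≤ Pool.Agent.H398R3.NA.D5 * (k : ℝ) ^ ((1 : ℝ) / 4) := by
    have h4 := Pool.Agent.H398R3.NA.div_bound k (by omega)
    have h5 : (1 : ℝ) ≤ k.divisors.card := by
      have : 1 ≤ k.divisors.card := Finset.card_pos.2 ⟨1, Nat.mem_divisors.2 ⟨one_dvd _, by omega⟩⟩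
      exact_mod_cast this
    have h6 : (k.divisors.card : ℝ) ≤ (k.divisors.card : ℝ) ^ 5 := by
      calc (k.divisors.card : ℝ) = (k.divisors.card : ℝ) ^ 1 := (pow_one _).symm
        _ ≤ (k.divisors.card : ℝ) ^ 5 := pow_le_pow_right₀ h5 (by norm_num)
    exact h6.trans h4
  have h4 : M < k ^ d := by
    have h5 : (M : ℤ) ∣ ((k ^ d : ℕ) : ℤ) - 1 := by
      rw [← ZMod.intCast_zmod_eq_zero_iff_dvd]
      push_cast
      rw [hk3, sub_self]
    have h6 : 2 ≤ k ^ d := le_trans hk2 (Nat.le_self_pow (by omega) k)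
    have h7 := Int.le_of_dvd (by
      have : (2 : ℤ) ≤ ((k ^ d : ℕ) : ℤ) := by exact_mod_cast h6
      linarith) h5
    have h8 : (M : ℤ) < ((k ^ d : ℕ) : ℤ) := by linarith
    exact_mod_cast h8
  have hM0 : (0 : ℝ) < M := by exact_mod_cast hM
  have hd0 : (0 : ℝ) < d := by exact_mod_cast hd
  have h5 : (k : ℝ) ^ ((1 : ℝ) / 4) * (1 / Real.sqrt k) ≤ (M : ℝ) ^ (-(1 / (4 * (d : ℝ)))) := by
    have e1 : 1 / Real.sqrt k = (k : ℝ) ^ (-(1 / 2) : ℝ) := by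
      rw [Real.sqrt_eq_rpow, Real.rpow_neg hk0.le, one_div]
    rw [e1, ← Real.rpow_add hk0]
    have e2 : (k : ℝ) ^ ((1 : ℝ) / 4 + -(1 / 2)) = ((k : ℝ) ^ d) ^ (-(1 / (4 * (d : ℝ)))) := by
      rw [← Real.rpow_natCast, ← Real.rpow_mul hk0.le]
      congr 1
      field_simp
      norm_num
    rw [e2]
    have h6 : (M : ℝ) ≤ (k : ℝ) ^ d := by exact_mod_cast h4.le
    exact Real.rpow_le_rpow_of_nonpos hM0 h6 (by
      have : 0 ≤ 1 / (4 * (d : ℝ)) := by positivity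
      linarith)
  have hD5 := Pool.Agent.H398R3.NA.D5_pos
  calc (((Icc 1 L).filter fun l => l ∣ k).card : ℝ) * (1 / Real.sqrt k) ≤
      (Pool.Agent.H398R3.NA.D5 * (k : ℝ) ^ ((1 : ℝ) / 4)) * (1 / Real.sqrt k) :=
        mul_le_mul_of_nonneg_right (h2.trans h3) hs
    _ = Pool.Agent.H398R3.NA.D5 * ((k : ℝ) ^ ((1 : ℝ) / 4) * (1 / Real.sqrt k)) := by ring
    _ ≤ _ := mul_le_mul_of_nonneg_left h5 hD5.le

/-- the bound of one term -/
theorem term_d {p ν m d L : ℕ} [NeZero (p ^ m)] (hd : 1 ≤ d)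
    (χ : DirichletCharacter ℂ (p ^ ν)) (Y : ℝ) (hY : 1 ≤ Y) (w : ℝ → ℝ) (hw : ∀ t, |w t| ≤ 1)
    {l n : ℕ} (hl : 1 ≤ l) (hlL : l ≤ L) (hn : 1 ≤ n) :
    ‖Td m d χ Y w l n - (if l = 1 ∧ n = 1 then ((w 0 : ℝ) : ℂ) else 0)‖ ≤
      (∑ ω ∈ (Finset.univ : Finset (ZMod (p ^ m))).filter (fun a => a ^ d = 1),
        if p ^ m ≤ 2 * L * n ∧ ((p ^ m : ℕ) : ℤ) ∣ (n : ℤ) - ud (p ^ m) ω l then
          1 / Real.sqrt ((n : ℝ) * l) else 0) +
      ∑ k ∈ KK (p ^ m) d, if l * n = k then 1 / Real.sqrt k else 0 := by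
  have hc0 : 0 ≤ 1 / Real.sqrt ((n : ℝ) * l) := by positivity
  have hS1 : 0 ≤ ∑ ω ∈ (Finset.univ : Finset (ZMod (p ^ m))).filter (fun a => a ^ d = 1),
        (if p ^ m ≤ 2 * L * n ∧ ((p ^ m : ℕ) : ℤ) ∣ (n : ℤ) - ud (p ^ m) ω l then
          1 / Real.sqrt ((n : ℝ) * l) else 0) :=
    Finset.sum_nonneg fun ω _ => by split_ifs <;> first | exact hc0 | exact le_rfl
  have hS2 : 0 ≤ ∑ k ∈ KK (p ^ m) d, (if l * n = k then 1 / Real.sqrt k else 0) :=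
    Finset.sum_nonneg fun k _ => by
      split_ifs
      · positivity
      · exact le_rfl
  by_cases h11 : l = 1 ∧ n = 1
  · obtain ⟨rfl, rfl⟩ := h11
    have hT : Td m d χ Y w 1 1 = ((w 0 : ℝ) : ℂ) := by
      unfold Td cc PL mu
      simp
    rw [hT, if_pos ⟨rfl, rfl⟩, sub_self, norm_zero]
    exact add_nonneg hS1 hS2
  · rw [if_neg h11, sub_zero]
    unfold Td
    by_cases hk : ((((l * n : ℕ) : ℤ)) : ZMod (p ^ m)) ^ d = 1
    · rw [if_pos hk, mul_one, norm_mul, Complex.norm_real, Real.norm_eq_abs]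
      have hcc := abs_cc_le Y hY w hw l n
      have hχ := DirichletCharacter.norm_le_one χ (((l * n : ℕ) : ℤ) : ZMod (p ^ ν))
      have h0 := mul_le_mul hcc hχ (norm_nonneg _) hc0
      rw [mul_one] at h0
      rcases le_or_gt (p ^ m) (2 * L * n) with h1 | h1
      · have h2 : (1 / Real.sqrt ((n : ℝ) * l)) ≤
            ∑ ω ∈ (Finset.univ : Finset (ZMod (p ^ m))).filter (fun a => a ^ d = 1),
            (if p ^ m ≤ 2 * L * n ∧ ((p ^ m : ℕ) : ℤ) ∣ (n : ℤ) - ud (p ^ m) ω l then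
              1 / Real.sqrt ((n : ℝ) * l) else 0) := by
          have h3 := Finset.single_le_sum (f := fun ω : ZMod (p ^ m) =>
            (if p ^ m ≤ 2 * L * n ∧ ((p ^ m : ℕ) : ℤ) ∣ (n : ℤ) - ud (p ^ m) ω l then
              1 / Real.sqrt ((n : ℝ) * l) else 0)) (s := (Finset.univ :
                Finset (ZMod (p ^ m))).filter (fun a => a ^ d = 1))
            (fun ω _ => by
              split_ifs
              · exact hc0
              · exact le_rfl)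
            (show ((((l * n : ℕ) : ℤ)) : ZMod (p ^ m)) ∈ _ from
              Finset.mem_filter.2 ⟨Finset.mem_univ _, hk⟩)
          rw [if_pos ⟨h1, ud_dvd hd hk⟩] at h3
          exact h3
        linarith
      · have h2 : l * n ∈ KK (p ^ m) d := by
          unfold KK
          rw [Finset.mem_filter, Finset.mem_Icc]
          have h3 : l * n ≤ L * n := Nat.mul_le_mul_right n hlL
          have h4 : 2 * L * n = 2 * (L * n) := by ring
          have h5 : 2 ≤ l * n := by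
            rcases Nat.lt_or_ge 1 l with h' | h'
            · nlinarith
            · have : l = 1 := by omega
              have hn' : 1 < n := by
                by_contra hc
                exact h11 ⟨this, by omega⟩
              nlinarith
          refine ⟨⟨h5, by omega⟩, ?_⟩
          push_cast at hk ⊢
          exact hk
        have h3 := Finset.single_le_sum (f := fun k : ℕ =>
            (if l * n = k then 1 / Real.sqrt k else 0)) (s := KK (p ^ m) d)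
          (fun k _ => by
            split_ifs
            · positivity
            · exact le_rfl) h2
        simp only [if_true] at h3
        have h4 : 1 / Real.sqrt ((l * n : ℕ) : ℝ) = 1 / Real.sqrt ((n : ℝ) * l) := by
          push_cast
          rw [mul_comm]
        rw [h4] at h3
        linarith
    · rw [if_neg hk, mul_zero, mul_zero, norm_zero]
      exact add_nonneg hS1 hS2

theorem t_FM1D (hT : S_TAIL) : S_FM1D := by
  refine ⟨Pool.Agent.H398R3.NA.D5, Pool.Agent.H398R3.NA.D5_pos, ?_⟩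
  intro d hd p ν m N hmν _ χ Y w hp hp2 hm hY hN hw
  have hL1 : 1 ≤ ⌊Y⌋₊ := Nat.le_floor (by simpa using hY)
  have hLY : ((⌊Y⌋₊ : ℕ) : ℝ) ≤ Y := Nat.floor_le (by linarith)
  have hP1 : 1 ≤ p ^ m := Nat.one_le_pow _ _ hp.pos
  rw [total_d hmν χ Y w hd, ← mul_sub]
  rw [norm_mul, Complex.norm_natCast]
  refine mul_le_mul_of_nonneg_left ?_ (Nat.cast_nonneg _)
  have e1 : ((w 0 : ℝ) : ℂ) = ∑ l ∈ Icc 1 ⌊Y⌋₊, ∑ n ∈ Icc 1 N,
      (if l = 1 ∧ n = 1 then ((w 0 : ℝ) : ℂ) else 0) := by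
    rw [Finset.sum_eq_single_of_mem 1 (mem_Icc.2 ⟨le_rfl, hL1⟩)]
    · rw [Finset.sum_eq_single_of_mem 1 (mem_Icc.2 ⟨le_rfl, hN⟩)]
      · simp
      · intro n _ hn
        rw [if_neg (fun h => hn h.2)]
    · intro l _ hl
      exact Finset.sum_eq_zero fun n _ => if_neg fun h => hl h.1
  rw [e1, ← Finset.sum_sub_distrib]
  obtain ⟨Ω, hΩ⟩ : ∃ Ω : Finset (ZMod (p ^ m)), Ω = Finset.univ.filter (fun a => a ^ d = 1) :=
    ⟨_, rfl⟩
  have hΩc : (Ω.card : ℝ) ≤ d := by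
    rw [hΩ]
    exact_mod_cast card_roots (m := m) hp hp2 hd
  have hKc : ((KK (p ^ m) d).card : ℝ) ≤ d := by exact_mod_cast card_KK (m := m) hp hp2 hd
  obtain ⟨TL, hTL⟩ : ∃ TL : ℝ, TL = 4 * ((⌊Y⌋₊ : ℕ) : ℝ) *
    (Real.sqrt (((⌊Y⌋₊ : ℕ) : ℝ) / ((p ^ m : ℕ) : ℝ)) + Real.sqrt N / ((p ^ m : ℕ) : ℝ)) :=
    ⟨_, rfl⟩
  have hTL0 : 0 ≤ TL := by rw [hTL]; positivity
  have hD5 := Pool.Agent.H398R3.NA.D5_pos
  obtain ⟨E, hE⟩ : ∃ E : ℝ, E = Pool.Agent.H398R3.NA.D5 *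
    (((p ^ m : ℕ) : ℝ)) ^ (-(1 / (4 * (d : ℝ)))) := ⟨_, rfl⟩
  have hE0 : 0 ≤ E := by
    rw [hE]
    have : (0 : ℝ) ≤ ((p ^ m : ℕ) : ℝ) := Nat.cast_nonneg _
    have := Real.rpow_nonneg this (-(1 / (4 * (d : ℝ))))
    positivity
  have hbd : ‖∑ l ∈ Icc 1 ⌊Y⌋₊, (∑ n ∈ Icc 1 N, Td m d χ Y w l n - ∑ n ∈ Icc 1 N,
      (if l = 1 ∧ n = 1 then ((w 0 : ℝ) : ℂ) else 0))‖ ≤ Ω.card * TL +
        (KK (p ^ m) d).card * E := by
    have s1 : ∑ l ∈ Icc 1 ⌊Y⌋₊, ∑ n ∈ Icc 1 N, ∑ ω ∈ Ω,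
        (if p ^ m ≤ 2 * ⌊Y⌋₊ * n ∧ ((p ^ m : ℕ) : ℤ) ∣ (n : ℤ) - ud (p ^ m) ω l then
          1 / Real.sqrt ((n : ℝ) * l) else 0) ≤ Ω.card * TL := by
      have e2 : ∑ l ∈ Icc 1 ⌊Y⌋₊, ∑ n ∈ Icc 1 N, ∑ ω ∈ Ω,
        (if p ^ m ≤ 2 * ⌊Y⌋₊ * n ∧ ((p ^ m : ℕ) : ℤ) ∣ (n : ℤ) - ud (p ^ m) ω l then
          1 / Real.sqrt ((n : ℝ) * l) else 0) = ∑ ω ∈ Ω, ∑ l ∈ Icc 1 ⌊Y⌋₊, ∑ n ∈ Icc 1 N,
        (if p ^ m ≤ 2 * ⌊Y⌋₊ * n ∧ ((p ^ m : ℕ) : ℤ) ∣ (n : ℤ) - ud (p ^ m) ω l then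
          1 / Real.sqrt ((n : ℝ) * l) else 0) := by
        rw [Finset.sum_comm (s := Ω)]
        exact Finset.sum_congr rfl fun l _ => Finset.sum_comm
      have e2' : ∑ l ∈ Icc 1 ⌊Y⌋₊, ∑ n ∈ Icc 1 N, ∑ ω ∈ Ω,
        (if p ^ m ≤ 2 * ⌊Y⌋₊ * n ∧ ((p ^ m : ℕ) : ℤ) ∣ (n : ℤ) - ud (p ^ m) ω l then
          1 / Real.sqrt ((n : ℝ) * l) else 0) ≤ ∑ ω ∈ Ω, TL := by
        rw [e2]
        refine Finset.sum_le_sum fun ω _ => ?_
        have hA := hT ⌊Y⌋₊ (p ^ m) N (ud (p ^ m) ω) hL1 hP1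
        rw [← hTL] at hA
        refine le_trans (le_of_eq ?_) hA
        refine Finset.sum_congr rfl fun l _ => ?_
        rw [Finset.sum_filter]
      rw [Finset.sum_const, nsmul_eq_mul] at e2'
      exact e2'
    have s2 : ∑ l ∈ Icc 1 ⌊Y⌋₊, ∑ n ∈ Icc 1 N, ∑ k ∈ KK (p ^ m) d,
        (if l * n = k then 1 / Real.sqrt k else 0) ≤ (KK (p ^ m) d).card * E := by
      have e2 : ∑ l ∈ Icc 1 ⌊Y⌋₊, ∑ n ∈ Icc 1 N, ∑ k ∈ KK (p ^ m) d,
        (if l * n = k then 1 / Real.sqrt k else 0) = ∑ k ∈ KK (p ^ m) d, ∑ l ∈ Icc 1 ⌊Y⌋₊,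
          ∑ n ∈ Icc 1 N, (if l * n = k then 1 / Real.sqrt k else 0) := by
        rw [Finset.sum_comm (s := KK (p ^ m) d)]
        exact Finset.sum_congr rfl fun l _ => Finset.sum_comm
      rw [e2]
      have e3 : ∑ k ∈ KK (p ^ m) d, ∑ l ∈ Icc 1 ⌊Y⌋₊,
          ∑ n ∈ Icc 1 N, (if l * n = k then 1 / Real.sqrt k else 0) ≤ ∑ k ∈ KK (p ^ m) d, E := by
        refine Finset.sum_le_sum fun k hk => ?_
        rw [hE]
        exact one_K hd hP1 hk _ _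
      rw [Finset.sum_const, nsmul_eq_mul] at e3
      exact e3
    refine le_trans ?_ (add_le_add s1 s2)
    rw [← Finset.sum_add_distrib]
    refine (norm_sum_le _ _).trans (Finset.sum_le_sum fun l hl => ?_)
    rw [← Finset.sum_sub_distrib, ← Finset.sum_add_distrib]
    refine (norm_sum_le _ _).trans (Finset.sum_le_sum fun n hn => ?_)
    obtain ⟨hl1, hl2⟩ := mem_Icc.1 hl
    obtain ⟨hn1, hn2⟩ := mem_Icc.1 hn
    rw [hΩ]
    exact term_d hd χ Y hY w hw hl1 hl2 hn1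
  refine hbd.trans ?_
  have hd0 : (0 : ℝ) ≤ d := Nat.cast_nonneg _
  have hf1 : (Ω.card : ℝ) * TL + (KK (p ^ m) d).card * E ≤ d * (TL + E) := by
    have a1 := mul_le_mul_of_nonneg_right hΩc hTL0
    have a2 := mul_le_mul_of_nonneg_right hKc hE0
    linarith
  refine hf1.trans (mul_le_mul_of_nonneg_left ?_ hd0)
  have hP : (0 : ℝ) < (p : ℝ) ^ m := by
    have : (0 : ℝ) < p := by exact_mod_cast hp.pos
    positivity
  have hcast : ((p ^ m : ℕ) : ℝ) = (p : ℝ) ^ m := by push_cast; rfl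
  rw [hcast] at hTL hE
  rw [hTL, hE]
  have h5 : Real.sqrt (((⌊Y⌋₊ : ℕ) : ℝ) / (p : ℝ) ^ m) ≤ Real.sqrt (Y / (p : ℝ) ^ m) :=
    Real.sqrt_le_sqrt (div_le_div_of_nonneg_right hLY hP.le)
  have h6 : 0 ≤ Real.sqrt N / (p : ℝ) ^ m := by positivity
  have h7 : ((⌊Y⌋₊ : ℕ) : ℝ) * (Real.sqrt (((⌊Y⌋₊ : ℕ) : ℝ) / (p : ℝ) ^ m) +
      Real.sqrt N / (p : ℝ) ^ m) ≤ Y * (Real.sqrt (Y / (p : ℝ) ^ m) + Real.sqrt N / (p : ℝ) ^ m) :=
    mul_le_mul hLY (by linarith) (by positivity) (by linarith)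
  linarith

end Pool.Agent.Run7.h136.PV
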