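import Pool.Agent.Run7.h136.PV.DIAG

/-!
# Project PV (helper343), job DUAL, first part
-/

set_option autoImplicit false

namespace Pool.Agent.Run7.h136.PV

open Finset Pool.Agent.Run7.h343.PV

theorem tot (n : ℕ) : n ≤ 2 * (Nat.totient n) ^ 2 ∧ (n % 2 = 1 → n ≤ (Nat.totient n) ^ 2) := by
  refine Nat.recOnPosPrimePosCoprime ?_ ?_ ?_ ?_ n
  · intro p k hp hk
    obtain ⟨j, rfl⟩ : ∃ j, k = j + 1 := ⟨k - 1, by omega⟩
    rw [Nat.totient_prime_pow hp (by omega), Nat.add_sub_cancel]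
    have hp2 := hp.two_le
    rcases Nat.eq_or_lt_of_le hp2 with h | h
    · subst h
      have h1 : 1 ≤ 2 ^ j := Nat.one_le_two_pow
      constructor
      · rw [pow_succ]
        nlinarith
      · intro h2
        exfalso
        rw [pow_succ] at h2
        omega
    · obtain ⟨r, rfl⟩ : ∃ r, p = r + 1 := ⟨p - 1, by omega⟩
      have hr : 2 ≤ r := by omega
      rw [Nat.add_sub_cancel]
      have h1 : 1 ≤ (r + 1) ^ j := Nat.one_le_pow _ _ (by omega)
      have h2 : (r + 1) ^ (j + 1) ≤ ((r + 1) ^ j * r) ^ 2 := by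
        rw [pow_succ, mul_pow]
        have h3 : (r + 1) ^ j ≤ ((r + 1) ^ j) ^ 2 := by nlinarith
        have h4 : r + 1 ≤ r ^ 2 := by nlinarith
        exact Nat.mul_le_mul h3 h4
      exact ⟨by omega, fun _ => h2⟩
  · simp
  · simp
  · intro a b ha hb hab iha ihb
    rw [Nat.totient_mul hab]
    have key : ∀ x y s t : ℕ, x ≤ s → y ≤ t → x * y ≤ s * t := fun x y s t h1 h2 =>
      Nat.mul_le_mul h1 h2
    constructor
    · rcases Nat.mod_two_eq_zero_or_one a with h | h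
      · have hb1 : b % 2 = 1 := by
          rcases Nat.mod_two_eq_zero_or_one b with h' | h'
          · exfalso
            have h3 : 2 ∣ Nat.gcd a b := Nat.dvd_gcd (Nat.dvd_of_mod_eq_zero h)
              (Nat.dvd_of_mod_eq_zero h')
            rw [hab] at h3
            omega
          · exact h'
        have h4 := key _ _ _ _ iha.1 (ihb.2 hb1)
        calc a * b ≤ 2 * a.totient ^ 2 * b.totient ^ 2 := h4
          _ = 2 * (a.totient * b.totient) ^ 2 := by ring
      · have h4 := key _ _ _ _ (iha.2 h) ihb.1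
        calc a * b ≤ a.totient ^ 2 * (2 * b.totient ^ 2) := h4
          _ = 2 * (a.totient * b.totient) ^ 2 := by ring
    · intro h
      have h1 : a % 2 = 1 ∧ b % 2 = 1 := by
        rw [Nat.mul_mod] at h
        rcases Nat.mod_two_eq_zero_or_one a with h' | h' <;>
          rcases Nat.mod_two_eq_zero_or_one b with h'' | h'' <;> simp [h', h''] at h ⊢
      have h4 := key _ _ _ _ (iha.2 h1.1) (ihb.2 h1.2)
      calc a * b ≤ a.totient ^ 2 * b.totient ^ 2 := h4
        _ = (a.totient * b.totient) ^ 2 := by ring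

theorem chi_zero {p ν : ℕ} (hν : 1 ≤ ν) (hp : p.Prime) (χ : DirichletCharacter ℂ (p ^ ν)) {n : ℕ}
    (h : p ∣ n) : χ (n : ZMod (p ^ ν)) = 0 := by
  apply MulChar.map_nonunit
  rw [ZMod.isUnit_iff_coprime]
  intro hc
  have h2 := (Nat.coprime_pow_right_iff (by omega) n p).1 hc
  exact (hp.coprime_iff_not_dvd.1 h2.symm) h

theorem chi_one {p ν : ℕ} (hp : p.Prime) (χ : DirichletCharacter ℂ (p ^ ν)) {k : ℕ}
    (h : ¬ p ∣ k) :
    (starRingEnd ℂ) (χ (k : ZMod (p ^ ν))) * χ (k : ZMod (p ^ ν)) = 1 := by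
  have hc : k.Coprime (p ^ ν) := Nat.Coprime.pow_right ν ((hp.coprime_iff_not_dvd.2 h).symm)
  have h1 := DirichletCharacter.unit_norm_eq_one χ (ZMod.unitOfCoprime k hc)
  rw [ZMod.coe_unitOfCoprime] at h1
  rw [mul_comm, Complex.mul_conj, Complex.normSq_eq_norm_sq, h1]
  norm_num

theorem mu_mul {k l : ℕ} (h : k.Coprime l) : mu (l * k) = mu l * mu k := by
  unfold mu
  rw [ArithmeticFunction.isMultiplicative_moebius.map_mul_of_coprime h.symm]
  push_cast
  rfl

theorem mu_zero {k l : ℕ} (h : ¬ k.Coprime l) : mu (l * k) = 0 := by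
  unfold mu
  rw [ArithmeticFunction.moebius_eq_zero_of_not_squarefree]
  · simp
  · intro hs
    exact h (Nat.coprime_of_squarefree_mul hs).symm

/-- the arithmetic of the leading constant -/
theorem lead_le {p l n : ℕ} (hp : p.Prime) (hl : 1 ≤ l) (hn : 1 ≤ n) (hpl : ¬ p ∣ l) :
    1 / Real.sqrt ((n : ℝ) * l) * (((p * l : ℕ) : ℝ) / Nat.totient (p * l)) ≤ 3 := by
  have hcop : p.Coprime l := hp.coprime_iff_not_dvd.2 hpl
  rw [Nat.totient_mul hcop, Nat.totient_prime hp]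
  have hp2 := hp.two_le
  have hl0 : (0 : ℝ) < l := by exact_mod_cast hl
  have hn0 : (1 : ℝ) ≤ n := by exact_mod_cast hn
  have hφ : 0 < Nat.totient l := Nat.totient_pos.2 hl
  have hφ0 : (0 : ℝ) < Nat.totient l := by exact_mod_cast hφ
  have hp1 : (0 : ℝ) < ((p - 1 : ℕ) : ℝ) := by
    have : 0 < p - 1 := by omega
    exact_mod_cast this
  have hpp : (p : ℝ) ≤ 2 * ((p - 1 : ℕ) : ℝ) := by
    have : p ≤ 2 * (p - 1) := by omega
    exact_mod_cast this
  have h1 : (l : ℝ) ≤ 2 * (Nat.totient l : ℝ) ^ 2 := by exact_mod_cast (tot l).1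
  obtain ⟨s, hs⟩ : ∃ s : ℝ, s = Real.sqrt l := ⟨_, rfl⟩
  have hs0 : 0 < s := by rw [hs]; exact Real.sqrt_pos.2 hl0
  have hs2 : s ^ 2 = l := by rw [hs]; exact Real.sq_sqrt hl0.le
  have hsn : s ≤ Real.sqrt ((n : ℝ) * l) := by
    rw [hs]
    refine Real.sqrt_le_sqrt ?_
    nlinarith
  have h2 : 2 * s ≤ 3 * (Nat.totient l : ℝ) := by
    by_contra hcon
    have hcon := not_le.1 hcon
    nlinarith
  push_cast
  rw [one_div, inv_mul_eq_div, div_div, div_le_iff₀ (by positivity)]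
  calc (p : ℝ) * l ≤ (2 * ((p - 1 : ℕ) : ℝ)) * l := by gcongr
    _ = ((p - 1 : ℕ) : ℝ) * (2 * s) * s := by rw [← hs2]; ring
    _ ≤ ((p - 1 : ℕ) : ℝ) * (3 * (Nat.totient l : ℝ)) * Real.sqrt ((n : ℝ) * l) := by gcongr
    _ = 3 * (((p - 1 : ℕ) : ℝ) * (Nat.totient l : ℝ) * Real.sqrt ((n : ℝ) * l)) := by ring

end Pool.Agent.Run7.h136.PV
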